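import Pool.Agent.Helper70x.AP.Stm
import Pool.Agent.Q73.AD.YPC

/-!
# Sums of `q`-th powers over separated points in the plane, `q < 2`
-/

set_option autoImplicit false
open MeasureTheory Filter Topology Complex Metric

namespace Pool.Agent.Helper70x.AP

open Pool.Agent.Q73.AD

lemma dyad {q : ℝ} (k : ℕ) {m : ℝ} (hm : 0 < m) :
    (2 * m * ((2 : ℝ) ^ k)⁻¹) ^ q * (9 * 4 ^ k) = 9 * (2 * m) ^ q * ((2 : ℝ) ^ (2 - q)) ^ k := by
  have h2 : (0 : ℝ) < 2 ^ k := by positivity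
  rw [Real.mul_rpow (by positivity) (by positivity)]
  have h4 : (4 : ℝ) ^ k = (2 : ℝ) ^ k * 2 ^ k := by
    rw [← mul_pow]; norm_num
  have e1 : ((2 : ℝ) ^ (2 - q)) ^ k = ((2 : ℝ) ^ k) ^ (2 - q) := by
    rw [← Real.rpow_natCast, ← Real.rpow_natCast, ← Real.rpow_mul (by norm_num), ← Real.rpow_mul (by norm_num)]
    congr 1
    ring
  have e2 : ((2 : ℝ) ^ k) ^ (2 - q) = ((2 : ℝ) ^ k) ^ (2 : ℝ) * (((2 : ℝ) ^ k)⁻¹) ^ q := by
    rw [Real.rpow_sub h2, Real.inv_rpow h2.le]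
    rfl
  have e3 : ((2 : ℝ) ^ k) ^ (2 : ℝ) = 2 ^ k * 2 ^ k := by
    rw [Real.rpow_two]; ring
  rw [e1, e2, e3, h4]
  ring

theorem tpcq {q : ℝ} (hq : 1 ≤ q) (hq2 : q < 2) : PCq q := by
  classical
  obtain ⟨x, hx⟩ : ∃ x : ℝ, x = (2 : ℝ) ^ (2 - q) := ⟨_, rfl⟩
  have hx1 : 1 < x := by
    rw [hx]
    exact Real.one_lt_rpow (by norm_num) (by linarith)
  have hx0 : 0 < x := by linarith
  have hxm : 0 < x - 1 := by linarith
  refine ⟨9 * 2 ^ q * 16 ^ (2 - q) * x / (x - 1) + 36, ?_, ?_⟩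
  · have : 0 ≤ 9 * (2 : ℝ) ^ q * 16 ^ (2 - q) * x / (x - 1) := by positivity
    linarith
  intro M S p hM hp hsep y
  have hM1 : (1 : ℝ) ≤ M := by exact_mod_cast hM
  have hM0 : (0 : ℝ) < M := by linarith
  set Q : ℕ × ℕ → ℂ := fun a => (M : ℂ) * p a with hQ
  have hn : ∀ a (y : ℂ), ‖Q a - (M : ℂ) * y‖ = M * ‖p a - y‖ := by
    intro a y
    rw [hQ, ← mul_sub, norm_mul, Complex.norm_natCast]
  have hsepQ : ∀ a ∈ S, ∀ b ∈ S, a ≠ b → 1 ≤ ‖Q a - Q b‖ := by
    intro a ha b hb hab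
    have h1 := hsep a ha b hb hab
    have h2 : ‖Q a - Q b‖ = M * ‖p a - p b‖ := hn a (p b)
    rw [h2]
    rw [div_le_iff₀ hM0] at h1
    linarith
  have hcard : (S.card : ℝ) ≤ 36 * M ^ 2 := by
    have := pc_count S Q 0 (2 * M) (by linarith) hsepQ (by
      intro a ha
      have h1 := hn a 0
      simp only [mul_zero, sub_zero] at h1 ⊢
      rw [h1]
      have := hp a ha
      nlinarith)
    nlinarith
  -- dyadic scale
  obtain ⟨K, hK1, hK2⟩ : ∃ K : ℕ, (2 : ℝ) ^ K ≤ 16 * M ∧ 8 * (M : ℝ) ≤ 2 ^ K := by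
    have hex : ∃ k : ℕ, 8 * (M : ℝ) ≤ 2 ^ k := by
      obtain ⟨k, hk⟩ := pow_unbounded_of_one_lt (8 * (M : ℝ)) (by norm_num : (1 : ℝ) < 2)
      exact ⟨k, hk.le⟩
    refine ⟨Nat.find hex, ?_, Nat.find_spec hex⟩
    rcases Nat.eq_zero_or_pos (Nat.find hex) with h | h
    · rw [h]
      norm_num
      linarith
    · have h1 := Nat.find_min hex (m := Nat.find hex - 1) (by omega)
      push Not at h1
      have h2 : (2 : ℝ) ^ (Nat.find hex) = 2 ^ (Nat.find hex - 1) * 2 := by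
        rw [← pow_succ]
        congr 1
        omega
      rw [h2]
      linarith
  by_cases hy : ‖y‖ ≤ 4
  · have hnear : ∀ a ∈ S, ‖Q a - (M : ℂ) * y‖ ≤ 2 ^ K := by
      intro a ha
      rw [hn]
      have h1 : ‖p a - y‖ ≤ 6 := by
        have := norm_sub_le (p a) y
        have := hp a ha
        linarith
      nlinarith
    have h1 := pc_sum S Q ((M : ℂ) * y) K (fun t => ((M : ℝ) / (1 + t)) ^ q)
        (fun k => (2 * M * (2 ^ k)⁻¹) ^ q) hsepQ
        (fun k => by positivity) (by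
          intro t ht k h1 h2
          have hbase : (M : ℝ) / (1 + t) ≤ 2 * M * (2 ^ k)⁻¹ := by
            rcases Nat.eq_zero_or_pos k with h3 | h3
            · rw [h3]
              norm_num
              rw [div_le_iff₀ (by positivity)]
              nlinarith
            · have h2' : (2 : ℝ) ^ (k - 1) < t := by
                rcases h2 with h2 | h2
                · omega
                · exact h2
              obtain ⟨m, rfl⟩ : ∃ m, k = m + 1 := ⟨k - 1, by omega⟩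
              simp only [Nat.add_sub_cancel] at h2'
              have h4 : 2 * (M : ℝ) * (2 ^ (m + 1))⁻¹ = M / 2 ^ m := by
                rw [pow_succ]
                field_simp
              rw [h4]
              apply div_le_div_of_nonneg_left hM0.le (by positivity)
              linarith
          exact Real.rpow_le_rpow (by positivity) hbase (by linarith))
        hnear
    have h2 : ∑ k ∈ Finset.range (K + 1), ((2 * (M : ℝ) * ((2 : ℝ) ^ k)⁻¹) ^ q) * (9 * 4 ^ k) =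
        9 * (2 * M) ^ q * ((x ^ (K + 1) - 1) / (x - 1)) := by
      rw [← geom_sum_eq hx1.ne', Finset.mul_sum]
      refine Finset.sum_congr rfl fun k _ => ?_
      rw [dyad k hM0, hx]
    rw [h2] at h1
    have h3 : ∑ a ∈ S, ((M : ℝ) / (1 + M * ‖p a - y‖)) ^ q =
        ∑ a ∈ S, ((M : ℝ) / (1 + ‖Q a - (M : ℂ) * y‖)) ^ q :=
      Finset.sum_congr rfl fun a _ => by rw [hn]
    rw [h3]
    have h4 : x ^ K ≤ 16 ^ (2 - q) * (M : ℝ) ^ (2 - q) := by
      have e1 : x ^ K = ((2 : ℝ) ^ K) ^ (2 - q) := by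
        rw [hx, ← Real.rpow_natCast, ← Real.rpow_natCast, ← Real.rpow_mul (by norm_num),
          ← Real.rpow_mul (by norm_num)]
        congr 1
        ring
      rw [e1, ← Real.mul_rpow (by norm_num) hM0.le]
      exact Real.rpow_le_rpow (by positivity) hK1 (by linarith)
    have h5 : (x ^ (K + 1) - 1) / (x - 1) ≤ x * (16 ^ (2 - q) * (M : ℝ) ^ (2 - q)) / (x - 1) := by
      apply div_le_div_of_nonneg_right _ hxm.le
      rw [pow_succ]
      have := mul_le_mul_of_nonneg_right h4 hx0.le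
      linarith
    have h6 : (2 * (M : ℝ)) ^ q * (M : ℝ) ^ (2 - q) = 2 ^ q * M ^ 2 := by
      rw [Real.mul_rpow (by norm_num) hM0.le, mul_assoc, ← Real.rpow_add hM0]
      have : q + (2 - q) = (2 : ℕ) := by push_cast; ring
      rw [this, Real.rpow_natCast]
    calc ∑ a ∈ S, ((M : ℝ) / (1 + ‖Q a - (M : ℂ) * y‖)) ^ q
        ≤ 9 * (2 * M) ^ q * ((x ^ (K + 1) - 1) / (x - 1)) := h1
      _ ≤ 9 * (2 * M) ^ q * (x * (16 ^ (2 - q) * (M : ℝ) ^ (2 - q)) / (x - 1)) :=
        mul_le_mul_of_nonneg_left h5 (by positivity)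
      _ = 9 * 16 ^ (2 - q) * x / (x - 1) * ((2 * (M : ℝ)) ^ q * (M : ℝ) ^ (2 - q)) := by ring
      _ = 9 * 2 ^ q * 16 ^ (2 - q) * x / (x - 1) * M ^ 2 := by rw [h6]; ring
      _ ≤ (9 * 2 ^ q * 16 ^ (2 - q) * x / (x - 1) + 36) * M ^ 2 := by
        apply mul_le_mul_of_nonneg_right _ (by positivity)
        linarith
  · have hfar : ∀ a ∈ S, 2 * (M : ℝ) ≤ M * ‖p a - y‖ := by
      intro a ha
      push Not at hy
      have h1 : 2 ≤ ‖p a - y‖ := by
        have := norm_sub_norm_le y (p a)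
        rw [norm_sub_rev] at this
        have := hp a ha
        linarith
      nlinarith
    have h1 : ∑ a ∈ S, ((M : ℝ) / (1 + M * ‖p a - y‖)) ^ q ≤ ∑ a ∈ S, (1 : ℝ) := by
      apply Finset.sum_le_sum
      intro a ha
      have := hfar a ha
      apply Real.rpow_le_one (by positivity) _ (by linarith)
      rw [div_le_iff₀ (by positivity)]
      nlinarith
    refine h1.trans ?_
    rw [Finset.sum_const, nsmul_eq_mul, mul_one]
    refine hcard.trans ?_
    apply mul_le_mul_of_nonneg_right _ (by positivity)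
    have : 0 ≤ 9 * (2 : ℝ) ^ q * 16 ^ (2 - q) * x / (x - 1) := by positivity
    linarith

end Pool.Agent.Helper70x.AP
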