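import Pool.Agent.Helper70x.AP.Stm
import Pool.Agent.Q73.AD.YTR

/-!
# Oscillation of a subharmonic function on small discs after subtracting linear functions, `q`-th powers
-/

set_option autoImplicit false
open MeasureTheory Filter Topology Complex Metric
open scoped ContDiff ComplexConjugate

namespace Pool.Agent.Helper70x.AP

open Pool.Agent.Q73.NL Pool.Agent.Q73.AD

lemma jensen {k m : ℂ → ℝ} {q B : ℝ} (hq : 1 ≤ q) (hk : ∀ y, 0 ≤ k y) (hm : ∀ y, 0 ≤ m y) (hB : 0 < B)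
    (h1 : Integrable m) (h2 : Integrable fun y => k y * m y) (h3 : Integrable fun y => k y ^ q * m y)
    (hmB : ∫ y, m y ≤ B) :
    (∫ y, k y * m y) ^ q ≤ 2 ^ q * B ^ (q - 1) * ∫ y, k y ^ q * m y := by
  obtain ⟨I, hI⟩ : ∃ I : ℝ, I = ∫ y, k y * m y := ⟨_, rfl⟩
  obtain ⟨X, hX⟩ : ∃ X : ℝ, X = ∫ y, k y ^ q * m y := ⟨_, rfl⟩
  have hI0 : 0 ≤ I := by rw [hI]; exact integral_nonneg fun y => mul_nonneg (hk y) (hm y)
  have hX0 : 0 ≤ X := by
    rw [hX]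
    exact integral_nonneg fun y => mul_nonneg (Real.rpow_nonneg (hk y) q) (hm y)
  rw [← hI, ← hX]
  rcases hI0.eq_or_lt with h0 | h0
  · rw [← h0, Real.zero_rpow (by linarith)]
    positivity
  obtain ⟨c, hc⟩ : ∃ c : ℝ, c = I / (2 * B) := ⟨_, rfl⟩
  have hc0 : 0 < c := by rw [hc]; positivity
  have hpt : ∀ t : ℝ, 0 ≤ t → t ≤ c + c ^ (1 - q) * t ^ q := by
    intro t ht
    rcases le_or_gt t c with h | h
    · have := mul_nonneg (Real.rpow_nonneg hc0.le (1 - q)) (Real.rpow_nonneg ht q)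
      linarith
    · have ht0 : 0 < t := hc0.trans h
      have e : t = t ^ (1 - q) * t ^ q := by
        rw [← Real.rpow_add ht0]
        simp
      have h5 : t ^ (1 - q) ≤ c ^ (1 - q) := Real.rpow_le_rpow_of_nonpos hc0 h.le (by linarith)
      have h6 := mul_le_mul_of_nonneg_right h5 (Real.rpow_nonneg ht q)
      rw [← e] at h6
      linarith
  have h4 : I ≤ c * B + c ^ (1 - q) * X := by
    have h5 : ∫ y, k y * m y ≤ ∫ y, (c * m y + c ^ (1 - q) * (k y ^ q * m y)) := by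
      refine integral_mono h2 ((h1.const_mul c).add (h3.const_mul _)) fun y => ?_
      have := mul_le_mul_of_nonneg_right (hpt (k y) (hk y)) (hm y)
      simp only
      linarith
    rw [integral_add (h1.const_mul c) (h3.const_mul _), integral_const_mul, integral_const_mul, ← hI,
      ← hX] at h5
    have := mul_le_mul_of_nonneg_left hmB hc0.le
    linarith
  have h5 : c * B = I / 2 := by
    rw [hc]
    field_simp
  rw [h5] at h4
  have h6 : c ^ (q - 1) * (I / 2) ≤ X := by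
    have h7 : I / 2 ≤ c ^ (1 - q) * X := by linarith
    have h8 := mul_le_mul_of_nonneg_left h7 (Real.rpow_nonneg hc0.le (q - 1))
    have h9 : c ^ (q - 1) * (c ^ (1 - q) * X) = X := by
      rw [← mul_assoc, ← Real.rpow_add hc0]
      simp
    rwa [h9] at h8
  have e1 : I ^ q = 2 ^ q * B ^ (q - 1) * (c ^ (q - 1) * (I / 2)) := by
    have e2 : I ^ q = I ^ (q - 1) * I := by
      rw [← Real.rpow_add_one h0.ne']
      congr 1
      ring
    have e3 : (2 : ℝ) ^ q = 2 ^ (q - 1) * 2 := by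
      rw [← Real.rpow_add_one (by norm_num)]
      congr 1
      ring
    have e4 : I ^ (q - 1) = 2 ^ (q - 1) * B ^ (q - 1) * c ^ (q - 1) := by
      rw [← Real.mul_rpow (by norm_num) hB.le, ← Real.mul_rpow (by positivity) hc0.le]
      congr 1
      rw [hc]
      field_simp
    rw [e2, e3, e4]
    ring
  rw [e1]
  exact mul_le_mul_of_nonneg_left h6 (by positivity)

lemma lq_int {m : ℂ → ℝ} {q : ℝ} (hm : Continuous m) (hs : HasCompactSupport m) (M : ℕ) (p : ℂ) :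
    Integrable (fun y => ((M : ℝ) / (1 + M * ‖p - y‖)) ^ q * m y) := by
  rcases Nat.eq_zero_or_pos M with rfl | hM
  · have h1 := (hm.integrable_of_hasCompactSupport (μ := volume) hs).const_mul ((0 : ℝ) ^ q)
    refine h1.congr (ae_of_all _ fun y => ?_)
    simp
  have hM0 : (0 : ℝ) < M := by exact_mod_cast hM
  refine Continuous.integrable_of_hasCompactSupport ?_ (HasCompactSupport.mul_left hs)
  refine Continuous.mul (Continuous.rpow_const ?_ fun y => Or.inl ?_) hm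
  · refine Continuous.div (by fun_prop) (by fun_prop) fun y => ?_
    positivity
  · positivity

lemma sum_Lq {m : ℂ → ℝ} {q : ℝ} (hq : 1 ≤ q) (hm : Continuous m) (hs : HasCompactSupport m)
    (hm0 : ∀ y, 0 ≤ m y) {M : ℕ}
    {S : Finset (ℕ × ℕ)} {p : ℕ × ℕ → ℂ} {c B : ℝ} (hc : 0 ≤ c) (hB0 : 0 < B) (hB : ∫ y, m y ≤ B)
    (h : ∀ y : ℂ, ∑ a ∈ S, ((M : ℝ) / (1 + M * ‖p a - y‖)) ^ q ≤ c) :
    ∑ a ∈ S, (∫ y, (M : ℝ) / (1 + M * ‖p a - y‖) * m y) ^ q ≤ 2 ^ q * c * B ^ q := by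
  have h1 : ∀ a ∈ S, (∫ y, (M : ℝ) / (1 + M * ‖p a - y‖) * m y) ^ q ≤
      2 ^ q * B ^ (q - 1) * ∫ y, ((M : ℝ) / (1 + M * ‖p a - y‖)) ^ q * m y := by
    intro a _
    exact jensen hq (fun y => by positivity) hm0 hB0 (hm.integrable_of_hasCompactSupport hs)
      (YTR.l_int hm hs M (p a)) (lq_int hm hs M (p a)) hB
  refine (Finset.sum_le_sum h1).trans ?_
  rw [← Finset.mul_sum]
  have h2 : ∑ a ∈ S, ∫ y, ((M : ℝ) / (1 + M * ‖p a - y‖)) ^ q * m y ≤ c * B := by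
    rw [← integral_finsetSum S fun a _ => lq_int hm hs M (p a)]
    refine le_trans ?_ (mul_le_mul_of_nonneg_left hB hc)
    rw [← integral_const_mul]
    refine integral_mono (integrable_finsetSum S fun a _ => lq_int hm hs M (p a))
      ((hm.integrable_of_hasCompactSupport hs).const_mul c) fun y => ?_
    simp only
    rw [← Finset.sum_mul]
    exact mul_le_mul_of_nonneg_right (h y) (hm0 y)
  calc 2 ^ q * B ^ (q - 1) * ∑ a ∈ S, ∫ y, ((M : ℝ) / (1 + M * ‖p a - y‖)) ^ q * m y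
      ≤ 2 ^ q * B ^ (q - 1) * (c * B) := mul_le_mul_of_nonneg_left h2 (by positivity)
    _ = 2 ^ q * c * (B ^ (q - 1) * B) := by ring
    _ = _ := by
      rw [← Real.rpow_add_one hB0.ne']
      congr 2
      ring

open YTR in
/-- oscillation on small discs after subtracting linear functions -/
theorem tptrq {q : ℝ} (hq : 1 ≤ q) (hA : PA) (hB : PB) (hC : PC) (hCq : PCq q) : PTRq q := by
  intro D hD
  obtain ⟨C₁, hC1, hB⟩ := hB
  obtain ⟨C₂, hC2, hC⟩ := hC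
  obtain ⟨C₃, hC3, hCq⟩ := hCq
  obtain ⟨K, hK⟩ : ∃ K : ℝ, K = KK / Real.pi := ⟨_, rfl⟩
  have hK0 : 0 ≤ K := by rw [hK]; exact div_nonneg KK_nonneg Real.pi_pos.le
  have hlD : 0 ≤ Real.log (6 * D) := Real.log_nonneg (by linarith)
  obtain ⟨Q, hQ⟩ : ∃ Q : ℝ, Q = (Real.log (6 * D) + K) * (1 + 4 * D ^ 2) := ⟨_, rfl⟩
  have hQ0 : 0 ≤ Q := by rw [hQ]; positivity
  have hC12 : 1 ≤ C₁ * C₂ := by nlinarith
  obtain ⟨C₄, hC4⟩ : ∃ C₄ : ℝ, C₄ = 2 ^ q * (4 ^ q * C₃ + C₂) * C₁ ^ q := ⟨_, rfl⟩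
  have hC40 : 0 ≤ C₄ := by rw [hC4]; positivity
  refine ⟨4 * D + C₁ * C₂ * (Q + 6 * D ^ 2 + 1) + 3 * (C₁ * C₂) + C₄, ?_, ?_⟩
  · have : 0 ≤ C₁ * C₂ * (Q + 6 * D ^ 2 + 1) := by positivity
    linarith
  intro M A b v S p hCM hA1 hvm hvb hsub hvint hp hsep
  have hbig : 0 ≤ C₁ * C₂ * (Q + 6 * D ^ 2 + 1) := by positivity
  have hM4 : 4 * D ≤ M := by linarith
  have hM0 : (0 : ℝ) < M := by linarith
  have hM1 : 1 ≤ M := by
    have : (0 : ℝ) < M := hM0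
    exact_mod_cast this
  have hM1' : (1 : ℝ) ≤ M := by exact_mod_cast hM1
  have hlM : 0 ≤ Real.log M := Real.log_nonneg hM1'
  obtain ⟨δ, hδ⟩ : ∃ δ : ℝ, δ = 1 / (4 * M) := ⟨_, rfl⟩
  have hδ0 : 0 < δ := by rw [hδ]; positivity
  have hδ1 : δ ≤ 1 / 2 := by
    rw [hδ]
    exact one_div_le_one_div_of_le two_pos (by linarith)
  obtain ⟨V, hVs, hV0, hV1, hV2, hV3⟩ := hA v b δ hδ0 hδ1 hvm hvb hsub
  obtain ⟨m, H, hm, hs, hm0, hmA, hVr, hH⟩ := hB V A hVs hV0 (fun x hx => (hV1 x hx).2)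
    (hV2.trans hvint)
  obtain ⟨hc1, hc2, hc3, _⟩ := hC M S p hM1 hp hsep
  have hξ : ∀ a : ℕ × ℕ, ∃ ξ : ℂ, a ∈ S → ‖ξ‖ ≤ C₁ * A ∧
      ∀ x ∈ ball (0 : ℂ) 3, |H x - H (p a) - (conj ξ * (x - p a)).re| ≤ C₁ * A * ‖x - p a‖ ^ 2 := by
    intro a
    by_cases ha : a ∈ S
    · obtain ⟨ξ, h1, h2⟩ := hH (p a) (by rw [mem_ball_zero_iff]; linarith [hp a ha])
      exact ⟨ξ, fun _ => ⟨h1, h2⟩⟩
    · exact ⟨0, fun h => absurd h ha⟩
  choose ξ hξ using hξ
  obtain ⟨ρ, hρ⟩ : ∃ ρ : ℝ, ρ = D / M := ⟨_, rfl⟩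
  have hρ0 : 0 < ρ := by rw [hρ]; positivity
  have hρ4 : ρ ≤ 1 / 4 := by rw [hρ, div_le_iff₀ hM0]; linarith
  obtain ⟨W, hW⟩ : ∃ W : ℕ × ℕ → ℝ, W = fun a => ∫ y, kk M (p a) y * m y := ⟨_, rfl⟩
  have hW0 : ∀ a, 0 ≤ W a := fun a => by
    rw [hW]
    exact integral_nonneg fun y => mul_nonneg (kk_nonneg M (p a) y) (hm0 y)
  have hC1A : 0 ≤ C₁ * A := by positivity
  have hWs : ∑ a ∈ S, W a ≤ C₂ * (1 + Real.log M) * (C₁ * A) := by
    rw [hW]
    exact sum_W hm hs hm0 (by positivity) hmA hc2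
  have hLs := sum_Lq hq hm hs hm0 (by positivity : (0:ℝ) ≤ C₃ * (M : ℝ) ^ 2) (by positivity : 0 < C₁ * A) hmA
    (hCq M S p hM1 hp hsep)
  refine ⟨fun a => conj (ZZ m (p a) ρ) + ξ a,
    fun a => Q * W a + 2 * (2 * D ^ 2 * W a + C₁ * A * ρ ^ 2) + 1 / (M : ℝ) ^ 2, ?_, ?_, ?_, ?_⟩
  · intro a _
    have := hW0 a
    positivity
  · rw [Finset.sum_add_distrib, Finset.sum_add_distrib, ← Finset.mul_sum, ← Finset.mul_sum,
      Finset.sum_add_distrib, ← Finset.mul_sum, Finset.sum_const, Finset.sum_const, nsmul_eq_mul,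
      nsmul_eq_mul]
    have h1 : (S.card : ℝ) * (C₁ * A * ρ ^ 2) ≤ C₂ * (C₁ * A) * D ^ 2 := by
      calc (S.card : ℝ) * (C₁ * A * ρ ^ 2) ≤ C₂ * M ^ 2 * (C₁ * A * ρ ^ 2) := by gcongr
        _ = C₂ * (C₁ * A) * D ^ 2 := by rw [hρ]; field_simp
    have h2 : (S.card : ℝ) * (1 / (M : ℝ) ^ 2) ≤ C₂ := by
      calc (S.card : ℝ) * (1 / (M : ℝ) ^ 2) ≤ C₂ * M ^ 2 * (1 / (M : ℝ) ^ 2) := by gcongr
        _ = C₂ := by field_simp
    have h3 : (Q + 4 * D ^ 2) * ∑ a ∈ S, W a ≤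
        (Q + 4 * D ^ 2) * (C₂ * (1 + Real.log M) * (C₁ * A)) := by gcongr
    have h4 : C₂ * (C₁ * A) * D ^ 2 ≤ C₂ * (C₁ * A) * D ^ 2 * (1 + Real.log M) :=
      le_mul_of_one_le_right (by positivity) (by linarith)
    have h5 : C₂ ≤ C₂ * (C₁ * A) * (1 + Real.log M) := by
      have h6 : 1 ≤ C₁ * A * (1 + Real.log M) := by
        have : 1 ≤ C₁ * A := by nlinarith
        nlinarith
      calc C₂ = C₂ * 1 := (mul_one _).symm
        _ ≤ C₂ * (C₁ * A * (1 + Real.log M)) := mul_le_mul_of_nonneg_left h6 (by linarith)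
        _ = _ := by ring
    have h6 : 0 ≤ (4 * D + 3 * (C₁ * C₂) + C₄) * A * (1 + Real.log M) := by positivity
    calc Q * ∑ a ∈ S, W a + 2 * (2 * D ^ 2 * ∑ a ∈ S, W a + (S.card : ℝ) * (C₁ * A * ρ ^ 2)) +
          (S.card : ℝ) * (1 / (M : ℝ) ^ 2)
        = (Q + 4 * D ^ 2) * ∑ a ∈ S, W a + 2 * ((S.card : ℝ) * (C₁ * A * ρ ^ 2)) +
          (S.card : ℝ) * (1 / (M : ℝ) ^ 2) := by ring
      _ ≤ (Q + 4 * D ^ 2) * (C₂ * (1 + Real.log M) * (C₁ * A)) +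
          2 * (C₂ * (C₁ * A) * D ^ 2 * (1 + Real.log M)) + C₂ * (C₁ * A) * (1 + Real.log M) := by
          linarith
      _ = C₁ * C₂ * (Q + 6 * D ^ 2 + 1) * A * (1 + Real.log M) := by ring
      _ ≤ C₁ * C₂ * (Q + 6 * D ^ 2 + 1) * A * (1 + Real.log M) +
          (4 * D + 3 * (C₁ * C₂) + C₄) * A * (1 + Real.log M) := by linarith
      _ = _ := by ring
  · have h1 : ∀ a ∈ S, ‖conj (ZZ m (p a) ρ) + ξ a‖ ^ q ≤
        2 ^ q * (2 ^ q * (∫ y, (M : ℝ) / (1 + M * ‖p a - y‖) * m y) ^ q + (C₁ * A) ^ q) := by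
      intro a ha
      have hI0 : 0 ≤ ∫ y, (M : ℝ) / (1 + M * ‖p a - y‖) * m y :=
        integral_nonneg fun y => mul_nonneg (by positivity) (hm0 y)
      have h2 : ‖conj (ZZ m (p a) ρ) + ξ a‖ ≤
          2 * (∫ y, (M : ℝ) / (1 + M * ‖p a - y‖) * m y) + C₁ * A := by
        refine (norm_add_le _ _).trans (add_le_add ?_ (hξ a ha).1)
        rw [RCLike.norm_conj, hρ]
        exact ZZ_le hm hs hm0 hM1 hD (p a)
      refine (Real.rpow_le_rpow (norm_nonneg _) h2 (by linarith)).trans ?_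
      refine (add_rpow_le (by positivity) hC1A (by linarith)).trans (le_of_eq ?_)
      rw [Real.mul_rpow (by norm_num) hI0]
    have h2 : (S.card : ℝ) * (C₁ * A) ^ q ≤ C₂ * M ^ 2 * (C₁ * A) ^ q := by gcongr
    have h3 : 0 ≤ (4 * D + C₁ * C₂ * (Q + 6 * D ^ 2 + 1) + 3 * (C₁ * C₂)) * A ^ q * M ^ 2 := by positivity
    have h4 : (C₁ * A) ^ q = C₁ ^ q * A ^ q := Real.mul_rpow (by linarith) (by linarith)
    have h5 : (2 : ℝ) ^ q * 2 ^ q = 4 ^ q := by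
      rw [← Real.mul_rpow (by norm_num) (by norm_num)]
      norm_num
    calc ∑ a ∈ S, ‖conj (ZZ m (p a) ρ) + ξ a‖ ^ q
        ≤ ∑ a ∈ S, 2 ^ q * (2 ^ q * (∫ y, (M : ℝ) / (1 + M * ‖p a - y‖) * m y) ^ q + (C₁ * A) ^ q) :=
          Finset.sum_le_sum h1
      _ = 2 ^ q * (2 ^ q * ∑ a ∈ S, (∫ y, (M : ℝ) / (1 + M * ‖p a - y‖) * m y) ^ q +
          (S.card : ℝ) * (C₁ * A) ^ q) := by
          rw [← Finset.mul_sum, Finset.sum_add_distrib, ← Finset.mul_sum, Finset.sum_const, nsmul_eq_mul]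
      _ ≤ 2 ^ q * (2 ^ q * (2 ^ q * (C₃ * M ^ 2) * (C₁ * A) ^ q) + C₂ * M ^ 2 * (C₁ * A) ^ q) := by
          apply mul_le_mul_of_nonneg_left _ (by positivity)
          exact add_le_add (mul_le_mul_of_nonneg_left hLs (by positivity)) h2
      _ = 2 ^ q * ((2 ^ q * 2 ^ q) * C₃ + C₂) * C₁ ^ q * A ^ q * M ^ 2 := by rw [h4]; ring
      _ = C₄ * A ^ q * M ^ 2 := by rw [h5, hC4]
      _ ≤ C₄ * A ^ q * M ^ 2 + (4 * D + C₁ * C₂ * (Q + 6 * D ^ 2 + 1) + 3 * (C₁ * C₂)) * A ^ q * M ^ 2 := by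
          linarith
      _ = _ := by ring
  · intro a ha
    obtain ⟨k, hk⟩ := local_est hm hs hm0 hVr (p := p a) (ξ := ξ a) (c := C₁ * A) (ρ := ρ) hC1A hρ0
      (by linarith [hp a ha]) (hξ a ha).2
    obtain ⟨ζ, hζ⟩ : ∃ ζ : ℂ, ζ = conj (ZZ m (p a) ρ) + ξ a := ⟨_, rfl⟩
    simp only [← hζ] at hk ⊢
    obtain ⟨x', hx', hx2⟩ := near_lower hm hs hm0 (r := 1 / (2 * M)) (by positivity)
      (by rw [div_le_one (by positivity)]; linarith) (p a) (N := ball (p a) (2 * ρ))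
    rw [← hK] at hx2
    have hx'n : ‖x' - p a‖ < 1 / (2 * M) := by rw [← dist_eq_norm]; exact hx'
    have hrρ : 1 / (2 * (M : ℝ)) ≤ ρ := by
      rw [hρ, div_le_div_iff₀ (by positivity) hM0]
      nlinarith
    have hx'ρ : ‖x' - p a‖ ≤ ρ := by linarith
    have in5 : ∀ x : ℂ, ‖x - p a‖ ≤ ρ → x ∈ ball (0 : ℂ) 5 := by
      intro x hx
      rw [mem_ball_zero_iff]
      calc ‖x‖ = ‖p a + (x - p a)‖ := by congr 1; ring
        _ ≤ ‖p a‖ + ‖x - p a‖ := norm_add_le _ _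
        _ < 5 := by linarith [hp a ha]
    -- the point y
    have hy : ∃ y ∈ ball x' δ, V x' - (conj ζ * x').re - 1 / (M : ℝ) ^ 2 ≤ v y - (conj ζ * y).re := by
      by_contra hcon
      push Not at hcon
      have h1 := hV3 x' (in5 x' hx'ρ) ζ (V x' - (conj ζ * x').re - 1 / (M : ℝ) ^ 2)
        fun y hy => (hcon y hy).le
      have h2 : 0 < 1 / (M : ℝ) ^ 2 := by positivity
      linarith
    obtain ⟨y, hyb, hy⟩ := hy
    refine ⟨y, ?_, fun x hx => ?_⟩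
    · rw [mem_ball, dist_eq_norm] at hyb ⊢
      have h1 : δ + 1 / (2 * M) ≤ 1 / (M : ℝ) := by
        rw [hδ]
        have : 1 / (M : ℝ) - (1 / (4 * M) + 1 / (2 * M)) = 1 / (4 * M) := by field_simp; ring
        have h2 : 0 < 1 / (4 * (M : ℝ)) := by positivity
        linarith
      calc ‖y - p a‖ = ‖(y - x') + (x' - p a)‖ := by congr 1; ring
        _ ≤ ‖y - x'‖ + ‖x' - p a‖ := norm_add_le _ _
        _ < 1 / M := by linarith
    · rw [mem_closedBall, dist_eq_norm, ← hρ] at hx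
      have e1 := hk x hx
      have e2 := hk x' hx'ρ
      have e3 := near_upper hm hs hm0 hx
      have e4 := (hV1 x (in5 x hx)).1
      have e5 : ∫ y in ball (p a) (2 * ρ), m y ≤ (1 + 4 * D ^ 2) * W a := by
        rw [hρ, hW]
        exact near_mass hm hs hm0 hM1 hD (p a)
      have e6 : ρ ^ 2 * ∫ y in (ball (p a) (2 * ρ))ᶜ, m y / ‖p a - y‖ ^ 2 ≤ 2 * D ^ 2 * W a := by
        rw [hρ, hW]
        exact far_mass hm hs hm0 hM1 hD (p a)
      have e7 : Real.log (3 * ρ) = Real.log (6 * D) + Real.log (1 / (2 * M)) := by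
        rw [← Real.log_mul (by positivity) (by positivity), hρ]
        congr 1
        field_simp
        ring
      have e8 : (Real.log (6 * D) + K) * ∫ y in ball (p a) (2 * ρ), m y ≤ Q * W a := by
        rw [hQ]
        calc (Real.log (6 * D) + K) * ∫ y in ball (p a) (2 * ρ), m y ≤
              (Real.log (6 * D) + K) * ((1 + 4 * D ^ 2) * W a) :=
              mul_le_mul_of_nonneg_left e5 (by linarith)
          _ = _ := by ring
      rw [e7] at e3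
      rw [abs_le] at e1 e2
      have e9 : (Real.log (6 * D) + Real.log (1 / (2 * M))) * (∫ y in ball (p a) (2 * ρ), m y) -
          (Real.log (1 / (2 * M)) - K) * (∫ y in ball (p a) (2 * ρ), m y) =
          (Real.log (6 * D) + K) * ∫ y in ball (p a) (2 * ρ), m y := by ring
      linarith [e1.1, e1.2, e2.1, e2.2]

end Pool.Agent.Helper70x.AP
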