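import Pool.Agent.Helper70x.AP.Stm
import Pool.Agent.Q73.AD.YY5

/-!
# One step for a solution with growth exponent `N ≫ κ`, `q`-th powers
-/

set_option autoImplicit false
open MeasureTheory Filter Topology Complex Metric
open scoped ContDiff ComplexConjugate

namespace Pool.Agent.Helper70x.AP

open Pool.Agent.Q73.NL Pool.Agent.Q73.AD
open Pool.Agent.Q73.AD.Y5L

/-- the conclusion of Y5q -/
def Con5q (e C : ℝ) (M : ℕ) (N : ℝ) (φ : ℂ → ℝ) : Prop :=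
  ∃ (ζ : ℕ × ℕ → ℂ) (n : ℕ × ℕ → ℝ), (∀ a ∈ gd M, 0 ≤ n a ∧
      SS (N * ζ a) φ (ct M a) (32 / M) ≤ Real.exp (n a) * SS (N * ζ a) φ (ct M a) (2 / M)) ∧
    ∑ a ∈ gd M, n a ≤ C * (1 + Real.log M) * N ∧ ∑ a ∈ gd M, ‖ζ a‖ ^ e ≤ C * M ^ 2

/-- **Y5**, `q`-th powers -/
theorem ty5q {e : ℝ} (he : 1 ≤ e) (hL : YLq e) (hB1 : B1.{0}) (hB2 : B2.{0}) (hC1 : C1) (hC2 : C2) (hJ : CJ) : Y5q e := by
  classical
  obtain ⟨CL, hCL, hYL⟩ := hL
  refine ⟨CL + 40, by linarith, fun M hM => ?_⟩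
  have hMr : (40 : ℝ) ≤ M := by linarith
  have hM0 : (0 : ℝ) < M := by linarith
  have hMN : 0 < M := by exact_mod_cast hM0
  have hlM : 0 ≤ Real.log M := Real.log_nonneg (by linarith)
  by_contra hcon
  have hex : ∀ j : ℕ, ∃ (κ N : ℝ) (q φ : ℂ → ℝ), 1 ≤ κ ∧ ((j : ℝ) + 1) * κ ≤ N ∧
      (∀ z ∈ closedBall (0 : ℂ) 32, ContDiffAt ℝ ∞ φ z ∧ ContDiffAt ℝ 1 q z ∧ |q z| ≤ κ ^ 2 ∧
        ‖fderiv ℝ q z‖ ≤ κ ^ 2 ∧ lap φ z + q z * φ z = 0) ∧
      sn φ (closedBall 0 32) ≤ Real.exp N * sn φ (closedBall 0 2) ∧ ¬ Con5q e (CL + 40) M N φ := by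
    intro j
    by_contra h
    refine hcon ⟨(j : ℝ) + 1, by linarith [(Nat.cast_nonneg j : (0 : ℝ) ≤ j)],
      fun κ N q φ h1 h2 h3 h4 => ?_⟩
    by_contra h5
    exact h ⟨κ, N, q, φ, h1, h2, h3, h4, h5⟩
  choose κ N q φ hκ hN heq hsn hn using hex
  have hκ0 : ∀ j, 0 < κ j := fun j => by linarith [hκ j]
  have hN0 : ∀ j, 0 < N j := fun j => by
    have h1 := hN j
    have h2 : 0 < ((j : ℝ) + 1) * κ j := mul_pos (by positivity) (hκ0 j)
    linarith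
  obtain ⟨D, hD⟩ : ∃ D : Set ℂ, D = ball (0 : ℂ) 32 := ⟨_, rfl⟩
  have hDK : D ⊆ closedBall 0 32 := by rw [hD]; exact ball_subset_closedBall
  have h2sub : closedBall (0 : ℂ) 2 ⊆ D := by rw [hD]; exact closedBall_subset_ball (by norm_num)
  -- boundedness
  have hbd : ∀ j, ∃ B : ℝ, ∀ x ∈ closedBall (0 : ℂ) 32, |φ j x| ≤ B := fun j => by
    have h1 : ContinuousOn (φ j) (closedBall (0 : ℂ) 32) := fun x hx =>
      (heq j x hx).1.continuousAt.continuousWithinAt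
    obtain ⟨B, hB⟩ := (isCompact_closedBall (0 : ℂ) 32).exists_bound_of_continuousOn h1
    exact ⟨B, fun x hx => hB x hx⟩
  obtain ⟨S, hS⟩ : ∃ S : ℕ → ℝ, ∀ j, S j = sn (φ j) (closedBall 0 32) := ⟨_, fun _ => rfl⟩
  have hφS : ∀ j, ∀ x ∈ closedBall (0 : ℂ) 32, |φ j x| ≤ S j := fun j x hx => by
    obtain ⟨B, hB⟩ := hbd j
    rw [hS]
    exact le_sn2 hB hx
  have hctsub : ∀ a ∈ gd M, ∀ r : ℝ, r ≤ 32 / M → closedBall (ct M a) r ⊆ D := fun a ha r hr => by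
    intro x hx
    rw [mem_closedBall, dist_eq_norm] at hx
    rw [hD, mem_ball, dist_zero_right]
    have h1 := ct_norm ha
    have h2 : Real.sqrt 2 ≤ 2 := by
      rw [Real.sqrt_le_left (by norm_num)]
      norm_num
    have h3 : 32 / (M : ℝ) ≤ 1 := by
      rw [div_le_one hM0]
      linarith
    calc ‖x‖ = ‖(x - ct M a) + ct M a‖ := by rw [sub_add_cancel]
      _ ≤ ‖x - ct M a‖ + ‖ct M a‖ := norm_add_le _ _
      _ < 32 := by linarith
  have hS0 : ∀ j, 0 < S j := fun j => by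
    by_contra hneg
    rw [not_lt] at hneg
    have h1 : ∀ x ∈ closedBall (0 : ℂ) 32, |φ j x| ≤ 0 := fun x hx => (hφS j x hx).trans hneg
    refine hn j ⟨fun _ => 0, fun _ => 0, fun a ha => ⟨le_rfl, ?_⟩, ?_, ?_⟩
    · refine le_trans (sn_le2 le_rfl fun x hx => ?_) (mul_nonneg (Real.exp_pos _).le (sn_nonneg2 _ _))
      have h2 := h1 x (hDK (hctsub a ha _ le_rfl hx))
      have h3 : φ j x = 0 := abs_nonpos_iff.1 h2
      simp [cj, h3]
    · rw [Finset.sum_const_zero]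
      have := (hN0 j).le
      positivity
    · rw [Finset.sum_congr rfl (g := fun _ => (0 : ℝ)) (fun _ _ => by
        rw [norm_zero, Real.zero_rpow (by linarith)]), Finset.sum_const_zero]
      positivity
  obtain ⟨ψ, hψ⟩ : ∃ ψ : ℕ → ℂ → ℝ, ψ = fun j x => (S j)⁻¹ * φ j x := ⟨_, rfl⟩
  have hψ1 : ∀ j, ∀ x ∈ closedBall (0 : ℂ) 32, |ψ j x| ≤ 1 := fun j x hx => by
    simp only [hψ]
    rw [abs_mul, abs_of_pos (inv_pos.2 (hS0 j)), inv_mul_le_iff₀ (hS0 j), mul_one]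
    exact hφS j x hx
  have hsnψ : ∀ j (E : Set ℂ), sn (ψ j) E = (S j)⁻¹ * sn (φ j) E := fun j E => by
    rw [hψ]
    exact sn_const_mul' (inv_pos.2 (hS0 j)).le (φ j) E
  -- the sequence
  have hseq : Seq D N κ q ψ := by
    refine ⟨hκ, ?_, fun j z hz => ?_, fun j z hz => ?_, fun j z hz => ?_, fun j z hz => ?_, fun j z hz => ?_,
      fun j z hz => hψ1 j z (hDK hz)⟩
    · refine tendsto_atTop_mono (fun j => ?_) (tendsto_natCast_atTop_atTop (R := ℝ))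
      rw [le_div_iff₀ (hκ0 j)]
      refine le_trans ?_ (hN j)
      exact mul_le_mul_of_nonneg_right (by linarith) (hκ0 j).le
    · rw [hψ]
      exact (contDiffAt_const.mul (heq j z (hDK hz)).1).contDiffWithinAt
    · exact (heq j z (hDK hz)).2.1.contDiffWithinAt
    · exact (heq j z (hDK hz)).2.2.1
    · exact (heq j z (hDK hz)).2.2.2.1
    · have h1 := (heq j z (hDK hz)).2.2.2.2
      simp only [hψ]
      rw [lap_const_mul']
      calc _ = (S j)⁻¹ * (lap (φ j) z + q j z * φ j z) := by ring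
        _ = 0 := by rw [h1, mul_zero]
  have hDo : IsOpen D := by rw [hD]; exact isOpen_ball
  -- the limit
  obtain ⟨𝒰, h𝒰⟩ : ∃ 𝒰 : Ultrafilter ℕ, 𝒰 = Filter.hyperfilter ℕ := ⟨_, rfl⟩
  have h𝒰le : (𝒰 : Filter ℕ) ≤ atTop := by rw [h𝒰]; exact Nat.hyperfilter_le_atTop
  obtain ⟨⟨W, hW⟩, hLP⟩ := hB1 ℂ 𝒰 N ψ D hN0 (fun j x hx => hψ1 j x (hDK hx))
  have hL := hLP W hW
  obtain ⟨⟨w, hw⟩, hprops⟩ := hB2 ℂ 𝒰 N ψ D W hDo hL
  obtain ⟨hw01, husc, -, -, hcomp⟩ := hprops w hw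
  have hNC : NC D w := hC2 D w hDo (fun x hx => (hw01 x hx).1) husc
    (hC1 𝒰 D N κ q ψ W w h𝒰le hDo hseq hL hw)
  have hW1 : Real.exp (-1) ≤ W (closedBall 0 2) := by
    refine ge_of_tendsto' (hW _ h2sub) fun j => ?_
    have h1 : Real.exp (-N j) ≤ sn (ψ j) (closedBall 0 2) := by
      rw [hsnψ, Real.exp_neg, ← one_div, ← one_div, one_div_mul_eq_div, div_le_div_iff₀ (Real.exp_pos _) (hS0 j), one_mul,
        mul_comm, hS]
      exact hsn j
    have h2 := Real.rpow_le_rpow (Real.exp_pos _).le h1 (one_div_pos.2 (hN0 j)).le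
    rw [← Real.exp_mul] at h2
    have h3 : -N j * (1 / N j) = -1 := by
      have := (hN0 j).ne'
      field_simp
    rwa [h3] at h2
  obtain ⟨x₁, hx₁, hwx₁⟩ := hcomp _ h2sub (isCompact_closedBall _ _) ((Real.exp_pos _).trans_le hW1)
  rw [mem_closedBall, dist_zero_right] at hx₁
  subst hD
  have e1 : (fun z => w (st 1 z)) = w := funext fun z => by rw [st_one]
  have e2 : {z : ℂ | st 1 z ∈ ball (0 : ℂ) 32} = ball 0 32 := by
    ext z
    show st 1 z ∈ ball (0 : ℂ) 32 ↔ _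
    rw [st_one]
  have hiii := hYL M 1 w x₁ (by linarith) le_rfl (by norm_num) hw01 husc
    (by rw [e1, e2]; exact hNC) hx₁ (hW1.trans hwx₁)
  have hct2 : ∀ a ∈ gd M, ‖ct M a‖ ≤ 2 := fun a ha => (ct_norm ha).trans (by
    rw [Real.sqrt_le_left (by norm_num)]
    norm_num)
  obtain ⟨ζ, n, hn0, hnsum, hζsum, hy⟩ := hiii (gd M) (ct M) hct2 (fun a _ b _ hab => ct_sep hMN hab)
  have hψb : ∀ j, ∀ z ∈ ball (0 : ℂ) 32, |ψ j z| ≤ 1 := fun j z hz => hψ1 j z (hDK hz)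
  -- second part
  have hev1 : ∀ᶠ j in (𝒰 : Filter ℕ), ∀ a ∈ gd M,
      sn (fun z => Real.exp (-(N j * (conj (ζ a) * z).re)) * ψ j z) (closedBall (ct M a) (32 / M)) ≤
        Real.exp (N j * (n a + 1 / (M : ℝ) ^ 2)) *
          sn (fun z => Real.exp (-(N j * (conj (ζ a) * z).re)) * ψ j z) (closedBall (ct M a) (2 / M)) := by
    rw [Filter.eventually_all_finset]
    intro a ha
    obtain ⟨y, hy, hwy, hmain⟩ := hy a ha
    exact ev_comp (pj := fun _ => ct M a) hB1 hB2 hJ hN0 hψb hL hw hMr (hct2 a ha) tendsto_const_nhds hy hwy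
      hmain (by positivity)
  obtain ⟨j, h1⟩ := hev1.exists
  refine hn j ⟨ζ, fun a => N j * (n a + 1 / (M : ℝ) ^ 2), fun a ha => ⟨?_, ?_⟩, ?_, ?_⟩
  · have := hn0 a ha
    have := (hN0 j).le
    positivity
  · have h3 := h1 a ha
    have hfac : cj ((N j : ℂ) * ζ a) (φ j) =
        fun z => S j * (Real.exp (-(N j * (conj (ζ a) * z).re)) * ψ j z) := by
      funext z
      unfold cj
      rw [cmul_re, hψ]
      simp only
      have := (hS0 j).ne'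
      field_simp
    show sn (cj ((N j : ℂ) * ζ a) (φ j)) _ ≤ _ * sn (cj ((N j : ℂ) * ζ a) (φ j)) _
    rw [hfac, sn_const_mul' (hS0 j).le, sn_const_mul' (hS0 j).le, mul_left_comm (Real.exp _)]
    exact mul_le_mul_of_nonneg_left h3 (hS0 j).le
  · exact sum_new (by linarith) (hN0 j).le (by linarith) hnsum
  · refine hζsum.trans (mul_le_mul_of_nonneg_right (by linarith) (by positivity))

end Pool.Agent.Helper70x.AP
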