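import Pool.Agent.Helper70x.AP.Stm
import Pool.Agent.Q73.AD.YAf

/-!
# The one step lemma, scaled, `q`-th powers
-/

set_option autoImplicit false
open MeasureTheory Filter Topology Complex Metric
open scoped ContDiff ComplexConjugate

namespace Pool.Agent.Helper70x.AP

open Pool.Agent.Q73.NL Pool.Agent.Q73.AD

theorem ty7q {q : ℝ} (h : Y5q q) : Y7q q := by
  obtain ⟨C, hC, h1⟩ := h
  refine ⟨C, hC, fun M hM L hL => ?_⟩
  obtain ⟨T, hT, h2⟩ := h1 M hM
  have hM0 : (0 : ℝ) < M := by linarith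
  have hL0 : 0 < L := by linarith
  have hsL : 1 ≤ Real.sqrt L := Real.one_le_sqrt.2 hL
  refine ⟨T * Real.sqrt L, one_le_mul_of_one_le_of_one_le hT hsL, ?_⟩
  intro lam s N p ρ φ hl hN hsn
  have hs := hl.s_pos
  have hlam := hl.lam_pos
  set κ : ℝ := Real.sqrt (1 + lam * s ^ 2 * L) with hκ
  have hκ2 : κ ^ 2 = 1 + lam * s ^ 2 * L := Real.sq_sqrt (by positivity)
  have hκ1 : 1 ≤ κ := by
    rw [hκ]
    refine Real.one_le_sqrt.2 ?_
    have : 0 ≤ lam * s ^ 2 * L := by positivity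
    linarith
  have hκle : κ ≤ Real.sqrt L * (1 + Real.sqrt lam * s) := by
    rw [hκ]
    refine Real.sqrt_le_iff.2 ⟨by positivity, ?_⟩
    rw [mul_pow, Real.sq_sqrt hL0.le]
    have e : (1 + Real.sqrt lam * s) ^ 2 = 1 + 2 * (Real.sqrt lam * s) + lam * s ^ 2 := by
      have := Real.sq_sqrt hlam.le
      calc _ = 1 + 2 * (Real.sqrt lam * s) + (Real.sqrt lam) ^ 2 * s ^ 2 := by ring
        _ = _ := by rw [this]
    rw [e]
    have h3 : 0 ≤ L * (2 * (Real.sqrt lam * s)) := by positivity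
    nlinarith
  have hα : ‖(s : ℂ)‖ = s := by rw [Complex.norm_real, Real.norm_eq_abs, abs_of_pos hs]
  have hα0 : (s : ℂ) ≠ 0 := by exact_mod_cast hs.ne'
  have hNκ : T * κ ≤ N := by
    refine le_trans ?_ hN
    calc T * κ ≤ T * (Real.sqrt L * (1 + Real.sqrt lam * s)) :=
          mul_le_mul_of_nonneg_left hκle (by linarith)
      _ = _ := by ring
  have hN0 : 0 < N := by nlinarith
  have hs1 : s * (lam * s ^ 2 * L) ≤ lam * s ^ 2 * L := by
    have h3 : 0 ≤ lam * s ^ 2 * L := by positivity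
    have h4 := mul_le_mul_of_nonneg_right hl.s_le h3
    linarith
  obtain ⟨ζ, n, g2, g3, g4⟩ := h2 κ N (fun y => lam * s ^ 2 * ρ (p + s * y))
    (fun y => φ (p + s * y)) hκ1 hNκ (by
      intro y hy
      obtain ⟨b1, b2, b3, b4, b5, b6⟩ := afc_sol hl hα hy
      refine ⟨b1, b2, ?_, ?_, b6⟩
      · rw [abs_of_nonneg b3, hκ2]
        linarith
      · rw [hκ2]
        linarith) (by
      rw [afc_sn φ hα0, afc_sn φ hα0, mul_zero, add_zero, hα, mul_comm s 32, mul_comm s 2]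
      exact hsn)
  refine ⟨fun a => ((N / s : ℝ) : ℂ) * ζ a, n, ?_, g3, ?_⟩
  · intro a ha
    obtain ⟨h3, h4⟩ := g2 a ha
    refine ⟨h3, ?_⟩
    have e1 : 32 * (s / (M : ℝ)) = ‖(s : ℂ)‖ * (32 / M) := by rw [hα]; ring
    have e2 : 2 * (s / (M : ℝ)) = ‖(s : ℂ)‖ * (2 / M) := by rw [hα]; ring
    have e3 : conj (s : ℂ) * (((N / s : ℝ) : ℂ) * ζ a) = (N : ℂ) * ζ a := by
      rw [Complex.conj_ofReal, ← mul_assoc, ← Complex.ofReal_mul]
      congr 2
      field_simp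
    rw [e1, e2, afc_SS _ φ hα0, afc_SS _ φ hα0, e3]
    have h5 := mul_le_mul_of_nonneg_left h4
      (Real.exp_pos (-(conj (((N / s : ℝ) : ℂ) * ζ a) * p).re)).le
    calc _ ≤ _ := h5
      _ = _ := by ring
  · have h3 : ∀ a, ‖((N / s : ℝ) : ℂ) * ζ a‖ ^ q = (N / s) ^ q * ‖ζ a‖ ^ q := by
      intro a
      rw [norm_mul, Complex.norm_real, Real.norm_eq_abs, abs_of_pos (by positivity),
        Real.mul_rpow (by positivity) (norm_nonneg _)]
    simp only [h3]
    rw [← Finset.mul_sum]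
    calc (N / s) ^ q * ∑ a ∈ gd M, ‖ζ a‖ ^ q ≤ (N / s) ^ q * (C * M ^ 2) :=
          mul_le_mul_of_nonneg_left g4 (by positivity)
      _ = _ := by ring

end Pool.Agent.Helper70x.AP
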