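import Pool.Agent.Helper70x.AP.Z1q

/-!
# The local theorem for the `q`-th powers of the growth exponents, `q < 2`
-/

set_option autoImplicit false
open MeasureTheory Filter Topology Complex Metric
open scoped ContDiff ComplexConjugate

namespace Pool.Agent.Helper70x.AP

open Pool.Agent.Q73.NL Pool.Agent.Q73.AD
open Pool.Agent.Q73.AD.YZ1

theorem tz1q {q : ℝ} (hq : 1 ≤ q) (hq2 : q < 2) (h2 : Z2) (h2q : Z2q q) (h9 : Y9) (h10 : Y10) (h3 : Z3)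
    (h7 : K7) : Z1q q := by
  have hq0 : 0 < q := by linarith
  obtain ⟨C, hC1, h2⟩ := h2
  obtain ⟨Cq, hCq1, h2q⟩ := h2q
  obtain ⟨M₀, hM₀, h9⟩ := h9
  set θ : ℝ := 1 / (2 * (4 * Cq + 1)) with hθ
  have hθ0 : 0 < θ := by positivity
  have hθ1 : θ ≤ 1 := by
    rw [hθ, div_le_one (by positivity)]
    linarith
  have hθ2 : θ * (4 * Cq + 1) ≤ 1 / 2 := by
    rw [hθ]
    have : (4 * Cq + 1) ≠ 0 := by positivity
    field_simp
    exact le_refl _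
  obtain ⟨M, hM0, hMC', hM8, hMl'⟩ := ex_M (max C Cq) M₀
  have hMC : C ≤ M := (le_max_left _ _).trans hMC'
  have hMCq : Cq ≤ M := (le_max_right _ _).trans hMC'
  have hM2 : 2 ≤ M := by omega
  have hM1' : (1 : ℝ) ≤ M := by
    have : 1 ≤ M := by omega
    exact_mod_cast this
  have hlog : 0 ≤ Real.log (M : ℝ) := Real.log_natCast_nonneg _
  have hMl : C * (1 + Real.log M) ≤ M / 64 :=
    (mul_le_mul_of_nonneg_right (le_max_left _ _) (by linarith)).trans hMl'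
  obtain ⟨K, hK⟩ : ∃ K : ℝ, K = C * (1 + Real.log M) * M * 512 := ⟨_, rfl⟩
  have hK0 : 0 ≤ K := by rw [hK]; positivity
  obtain ⟨θ₂, hθ₂⟩ : ∃ θ₂ : ℝ, θ₂ = θ / (1 + K ^ (q - 1)) := ⟨_, rfl⟩
  have hKq : 0 ≤ K ^ (q - 1) := Real.rpow_nonneg hK0 _
  have hθ₂0 : 0 < θ₂ := by rw [hθ₂]; positivity
  have hθ₂1 : θ₂ ≤ θ := by
    rw [hθ₂]
    exact div_le_self hθ0.le (by linarith)
  have hθ₂2 : K ^ (q - 1) * θ₂ ≤ θ := by
    rw [hθ₂, ← mul_div_assoc, div_le_iff₀ (by positivity)]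
    nlinarith
  obtain ⟨ε, B, s₁, hε, hε1, hB1, hs₁, hY9⟩ := h9 θ₂ M hθ₂0 (hθ₂1.trans hθ1) hM0
  obtain ⟨l, hl1, hl⟩ := ex_lq hq hq2 (2 + 34 / ε) C (by linarith) hM2
  obtain ⟨l₁, hl₁⟩ := ex_l₁ (289 / ε) hM2
  refine ⟨M, s₁, hM2, hs₁, fun L hL => ?_⟩
  -- the constants T for the powers of M
  have hT : ∀ k : ℕ, ∃ T : ℝ, 1 ≤ T ∧ (1 ≤ k → Z2P C (M ^ k) L T ∧ ∃ T' : ℝ, 1 ≤ T' ∧ T' ≤ T ∧
      Z2qP q Cq (M ^ k) L T') := by
    intro k
    rcases Nat.eq_zero_or_pos k with rfl | hk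
    · exact ⟨1, le_rfl, fun h => absurd h (by norm_num)⟩
    · have hMk : (M : ℝ) ≤ (M : ℝ) ^ k := by
        calc (M : ℝ) = (M : ℝ) ^ 1 := (pow_one _).symm
          _ ≤ (M : ℝ) ^ k := pow_le_pow_right₀ hM1' hk
      obtain ⟨T, hT1, hT⟩ := h2 (M ^ k) (by push_cast; exact hMC.trans hMk) L hL
      obtain ⟨T', hT'1, hT'⟩ := h2q (M ^ k) (by push_cast; exact hMCq.trans hMk) L hL
      refine ⟨T + T', by linarith, fun _ => ⟨?_, T', hT'1, by linarith, hT'⟩⟩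
      intro lam s N p ρ φ hloc hTN hg
      refine hT lam s N p ρ φ hloc (le_trans ?_ hTN) hg
      have h4 : 0 ≤ 1 + Real.sqrt lam * s := by
        have := hloc.s_pos
        positivity
      nlinarith
  choose T hT1 hTZ using hT
  set TT : ℝ := ∑ k ∈ Finset.range (l + 1), T k with hTT
  have hTle : ∀ k, k ≤ l → T k ≤ TT := by
    intro k hk
    exact Finset.single_le_sum (f := T) (fun j _ => by linarith [hT1 j]) (Finset.mem_range.2 (by omega))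
  have hTT1 : 1 ≤ TT := (hT1 0).trans (hTle 0 (Nat.zero_le _))
  have hsL := Real.sqrt_nonneg L
  set G : ℝ := 2 * TT + 1024 * Real.sqrt L + 1 with hG
  have hG0 : 0 ≤ G := by positivity
  set G₂ : ℝ := C * (1 + Real.log M) * M * G with hG₂
  have hGG : G ≤ G₂ := by
    have h1 : 1 ≤ C * (1 + Real.log M) * M := by
      have h4 : 1 ≤ C * (1 + Real.log M) := by nlinarith
      nlinarith
    rw [hG₂]
    nlinarith
  have hT1l : TT ≤ G := by rw [hG]; linarith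
  obtain ⟨Cf, hCf⟩ := h7 M (5 * M) l l₁ (G ^ q) (G₂ ^ q) Cq (52 ^ q) θ (1 / 2)
  refine ⟨512 * B, max 1 Cf, by linarith, le_max_left _ _, ?_⟩
  intro lam s p ρ φ J hloc hs hκ hroot
  have hκ' : 512 * B ≤ Real.sqrt lam * sc s M J := hκ
  have hκ1 : 1 ≤ Real.sqrt lam * sc s M J := by linarith
  have hZk : ∀ k, 1 ≤ k → k ≤ l → ∃ T', 1 ≤ T' ∧ 2 * T' ≤ G ∧ Z2P C (M ^ k) L T' := by
    intro k hk hkl
    refine ⟨T k, hT1 k, ?_, (hTZ k hk).1⟩
    have := hTle k hkl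
    rw [hG]; linarith
  have hZkq : ∀ k, 1 ≤ k → k ≤ l → ∃ T', 1 ≤ T' ∧ 2 * T' ≤ G ∧ Z2qP q Cq (M ^ k) L T' := by
    intro k hk hkl
    obtain ⟨-, T', h4, h5, h6⟩ := hTZ k hk
    refine ⟨T', h4, ?_, h6⟩
    have := hTle k hkl
    rw [hG]; linarith
  obtain ⟨T₁, hT₁1, hT₁G, hT₁Z⟩ := hZk 1 le_rfl hl1
  rw [pow_one] at hT₁Z
  have hlin : ∀ (i : ℕ) (a : ℕ × ℕ), ∃ (x : ℝ) (R : Finset (ℕ × (ℕ × ℕ))),
      LL lam s G ε p φ M J i a → 0 ≤ x ∧
      (∀ r ∈ R, 1 ≤ r.1 ∧ i + r.1 ≤ J ∧ r.2 ∈ gd (M ^ r.1)) ∧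
      ∑ r ∈ R, ((M : ℝ) ^ (2 * r.1))⁻¹ ≤ θ₂ ∧
      ∑ r ∈ R, ((M : ℝ) ^ (2 * r.1))⁻¹ * gg lam s p φ M J (i + r.1) (ch (M ^ r.1) a r.2) ^ q ≤
        K ^ (q - 1) * θ₂ * x ^ q ∧
      ∀ j, i ≤ j → j ≤ J → ∀ b ∈ gd (M ^ j), anc (M ^ (j - i)) b = a →
        (∀ k, i < k → k ≤ j → (k - i, md (M ^ (k - i)) (anc (M ^ (j - k)) b)) ∉ R) →
        x ≤ gg lam s p φ M J j b ∧ gg lam s p φ M J j b ≤ 52 * x := by
    intro i a
    by_cases hL' : LL lam s G ε p φ M J i a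
    · obtain ⟨x, R, hx⟩ := linq_ (B := B) (s₁ := s₁) (θ := θ₂) hq hloc hs hM2 hL (by rw [hG]; linarith)
        (by rw [hG]; linarith) hκ' hY9 hκ1 hT₁1 hT₁G hT₁Z (by linarith) hL'
      rw [← hK] at hx
      exact ⟨x, R, fun _ => hx⟩
    · exact ⟨0, ∅, fun h => absurd h hL'⟩
  choose x R hxR using hlin
  have hgg0 : ∀ i a, 0 ≤ gg lam s p φ M J i a := gg_nonneg hloc hM2
  have hlt : ∀ i a, G ^ q < gg lam s p φ M J i a ^ q → G < gg lam s p φ M J i a := fun i a h =>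
    (Real.rpow_lt_rpow_iff hG0 (hgg0 i a) hq0).1 h
  have hle : ∀ i a, gg lam s p φ M J i a ^ q ≤ G ^ q → gg lam s p φ M J i a ≤ G := fun i a h =>
    (Real.rpow_le_rpow_iff (hgg0 i a) hG0 hq0).1 h
  have htree : Tree M (5 * M) l l₁ J (G ^ q) (G₂ ^ q) Cq (52 ^ q) θ (1 / 2)
      (fun i a => gg lam s p φ M J i a ^ q) (LL lam s G ε p φ M J) (fun i a => x i a ^ q) R := by
    refine ⟨hM2, by omega, hl1, Real.rpow_nonneg hG0 q, Real.rpow_le_rpow hG0 hGG hq0.le, hCq1,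
      Real.one_le_rpow (by norm_num) hq0.le, hθ0.le, hθ2,
      by norm_num, le_rfl, fun i a => Real.rpow_nonneg (hgg0 i a) q, ?_, ?_, ?_, ?_, ?_, ?_, ?_, ?_, ?_, ?_⟩
    · -- root
      apply Real.rpow_le_rpow (hgg0 _ _) _ hq0.le
      have hmem : ((0, 0) : ℕ × ℕ) ∈ gd (M ^ 0) := by rw [pow_zero, mem_gd]; simp
      rw [gg_eq (Nat.zero_le _) hmem, pp_zero hmem]
      have h0 : sc s M 0 = s := by simp [sc]
      have h1 := kpos hloc hM2 0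
      rw [h0] at h1 ⊢
      rw [div_le_iff₀ h1]
      refine hroot.trans ?_
      have h4 : 1 ≤ G₂ := by
        refine le_trans ?_ hGG
        rw [hG]; linarith
      nlinarith
    · intro i hi a ha hg c hc
      apply Real.rpow_le_rpow (hgg0 _ _) _ hq0.le
      exact child_ hloc hM2 hκ1 hT₁1 hT₁G hT₁Z hi ha (hle i a hg) hc
    · intro i a ha hg k hk hkl hik
      obtain ⟨T', h4, h5, h6⟩ := hZkq k hk hkl
      exact superq_ hq hloc hM2 hκ1 h4 h5 h6 ha (hlt i a hg) hik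
    · intro i a ha hg hik S hS hSc
      obtain ⟨T', h4, h5, h6⟩ := hZk l hl1 le_rfl
      exact super'q_ hq hloc hM2 hκ1 h4 h5 (by linarith) h6 hε hε1 hl ha (hlt i a hg) hik S hS
        fun c hc => ⟨hlt _ _ (hSc c hc).1, (hSc c hc).2⟩
    · intro i _ a _ hL'
      exact Real.rpow_nonneg (hxR i a hL').1 q
    · intro i _ a _ hL'
      exact (hxR i a hL').2.1
    · intro i _ a _ hL'
      exact (hxR i a hL').2.2.1.trans hθ₂1
    · intro i _ a _ hL'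
      refine (hxR i a hL').2.2.2.1.trans ?_
      exact mul_le_mul_of_nonneg_right hθ₂2 (Real.rpow_nonneg (hxR i a hL').1 q)
    · intro i a _ hL' j hij hjJ b hb hanc hnot
      obtain ⟨h4, h5⟩ := (hxR i a hL').2.2.2.2 j hij hjJ b hb hanc hnot
      have hx0 := (hxR i a hL').1
      refine ⟨Real.rpow_le_rpow hx0 h4 hq0.le, ?_⟩
      rw [← Real.mul_rpow (by norm_num) hx0]
      exact Real.rpow_le_rpow (hgg0 _ _) h5 hq0.le
    · intro i hi a ha hg c hc hgc h4 h5 h6 h8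
      have := birth_ hloc hM8 hκ1 hT₁1 hT₁G hT₁Z h10 h3 hε hε1 hMl hl₁ hi ha (hle i a hg) hc
        (hlt _ _ hgc) h4 h5 h6 h8
      push_cast
      exact this
  have hfin := hCf J _ _ _ _ htree
  have hkp := kpos hloc hM2 J
  have h4 : ∑ a ∈ gd (M ^ J), gr φ (p + s * ct (M ^ J) a) (s / M ^ J) ^ q =
      (∑ a ∈ gd (M ^ J), gg lam s p φ M J J a ^ q) * (Real.sqrt lam * sc s M J) ^ q := by
    rw [Finset.sum_mul]
    apply Finset.sum_congr rfl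
    intro a ha
    rw [← Real.mul_rpow (hgg0 _ _) hkp.le, gg_mul hloc hM2 le_rfl ha]
    rfl
  rw [h4]
  show _ ≤ max 1 Cf * (M : ℝ) ^ (2 * J) * (Real.sqrt lam * sc s M J) ^ q
  apply mul_le_mul_of_nonneg_right _ (Real.rpow_nonneg hkp.le q)
  refine hfin.trans (mul_le_mul_of_nonneg_right (le_max_right _ _) (by positivity))

/-- no bound for the growth exponent is necessary: increase `lam` -/
theorem tz1l {q : ℝ} (h : Z1q q) : Z1L q := by
  obtain ⟨M, s₁, hM2, hs₁, h⟩ := h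
  refine ⟨M, s₁, hM2, hs₁, fun L hL => ?_⟩
  obtain ⟨C, A, hC, hA, h⟩ := h L hL
  refine ⟨C, A, hC, hA, fun lam s p ρ φ J hloc hs hκ => ?_⟩
  have hlam := hloc.lam_pos
  have hs0 := hloc.s_pos
  have hN0 : 0 ≤ gr φ p s := YZ1.gr_nonneg hloc
  obtain ⟨N, hN⟩ : ∃ N : ℝ, N = gr φ p s := ⟨_, rfl⟩
  rw [← hN] at hN0 ⊢
  have hsl : 0 < Real.sqrt lam := Real.sqrt_pos.2 hlam
  obtain ⟨μ, hμ⟩ : ∃ μ : ℝ, μ = Real.sqrt lam + N / s := ⟨_, rfl⟩
  have hNs : 0 ≤ N / s := by positivity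
  have hμ0 : 0 < μ := by rw [hμ]; positivity
  have hμl : Real.sqrt lam ≤ μ := by rw [hμ]; linarith
  have hsq : Real.sqrt (μ ^ 2) = μ := Real.sqrt_sq hμ0.le
  have hlamμ : lam ≤ μ ^ 2 := by
    have h1 := pow_le_pow_left₀ hsl.le hμl 2
    rwa [Real.sq_sqrt hlam.le] at h1
  obtain ⟨t, ht⟩ : ∃ t : ℝ, t = lam / μ ^ 2 := ⟨_, rfl⟩
  have ht0 : 0 < t := by rw [ht]; positivity
  have ht1 : t ≤ 1 := by rw [ht, div_le_one (by positivity)]; exact hlamμ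
  have hloc' : Loc (μ ^ 2) L s p (fun z => t * ρ z) φ := by
    refine ⟨by positivity, hs0, hloc.s_le, fun z hz => ?_, hloc.pos⟩
    obtain ⟨h1, h2, h3, h4, h5, h6⟩ := hloc.sol z hz
    refine ⟨h1, contDiffAt_const.mul h2, by positivity, ?_, ?_, ?_⟩
    · calc t * ρ z ≤ 1 * ρ z := mul_le_mul_of_nonneg_right ht1 h3
        _ ≤ L := by rw [one_mul]; exact h4
    · have h7 : DifferentiableAt ℝ ρ z := h2.differentiableAt (by norm_num)
      rw [fderiv_const_mul h7, norm_smul, Real.norm_of_nonneg ht0.le]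
      calc t * ‖fderiv ℝ ρ z‖ ≤ 1 * ‖fderiv ℝ ρ z‖ := mul_le_mul_of_nonneg_right ht1 (norm_nonneg _)
        _ ≤ L := by rw [one_mul]; exact h5
    · have e : μ ^ 2 * (t * ρ z) = lam * ρ z := by
        rw [ht]
        field_simp
      rw [e]
      exact h6
  have h1 := h (μ ^ 2) s p (fun z => t * ρ z) φ J hloc' hs (by
    rw [hsq]
    refine hκ.trans ?_
    have hM0 : (0 : ℝ) < M := by
      have : 0 < M := by omega
      exact_mod_cast this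
    exact mul_le_mul_of_nonneg_right hμl (by positivity)) (by
    rw [hsq, ← hN, hμ, add_mul, div_mul_cancel₀ _ hs0.ne']
    have : 0 ≤ Real.sqrt lam * s := by positivity
    linarith)
  rw [hsq] at h1
  refine h1.trans (le_of_eq ?_)
  congr 2
  rw [hμ]
  field_simp

end Pool.Agent.Helper70x.AP
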