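import Pool.Agent.Helper70x.AP.Stm
import Pool.Agent.Q73.AD.YZ2

/-!
# The sum of the `q`-th powers of the growth exponents of the subsquares
-/

set_option autoImplicit false
open MeasureTheory Filter Topology Complex Metric
open scoped ContDiff ComplexConjugate

namespace Pool.Agent.Helper70x.AP

open Pool.Agent.Q73.NL Pool.Agent.Q73.AD

lemma log_rpow {q : ℝ} (hq : 1 ≤ q) (hq2 : q < 2) : ∃ c : ℝ, 0 < c ∧ ∀ x : ℝ, 1 ≤ x →
    (1 + Real.log x) ^ q ≤ c * x ^ (2 - q) := by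
  obtain ⟨ε, hε⟩ : ∃ ε : ℝ, ε = (2 - q) / q := ⟨_, rfl⟩
  have hq0 : 0 < q := by linarith
  have hε0 : 0 < ε := by rw [hε]; exact div_pos (by linarith) hq0
  refine ⟨(1 + 1 / ε) ^ q, by positivity, fun x hx => ?_⟩
  have hx0 : 0 < x := by linarith
  have h1 := Real.log_le_rpow_div hx0.le hε0
  have h2 : 1 ≤ x ^ ε := Real.one_le_rpow hx hε0.le
  have h3 : 1 + Real.log x ≤ (1 + 1 / ε) * x ^ ε := by
    have e : (1 + 1 / ε) * x ^ ε = x ^ ε + x ^ ε / ε := by ring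
    rw [e]
    linarith
  have h4 : 0 ≤ 1 + Real.log x := by linarith [Real.log_nonneg hx]
  calc (1 + Real.log x) ^ q ≤ ((1 + 1 / ε) * x ^ ε) ^ q := Real.rpow_le_rpow h4 h3 hq0.le
    _ = (1 + 1 / ε) ^ q * (x ^ ε) ^ q := Real.mul_rpow (by positivity) (by positivity)
    _ = (1 + 1 / ε) ^ q * x ^ (2 - q) := by
      rw [← Real.rpow_mul hx0.le, hε]
      congr 2
      field_simp

lemma rpow_sub_one_mul {B q : ℝ} (hB : 0 ≤ B) (hq : 1 ≤ q) : B ^ (q - 1) * B = B ^ q := by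
  rcases hB.eq_or_lt with rfl | h0
  · rw [mul_zero, Real.zero_rpow (by linarith)]
  · rw [← Real.rpow_add_one h0.ne']
    congr 1
    ring

lemma sum_rpow_le {ι : Type*} {S : Finset ι} {n : ι → ℝ} {B q : ℝ} (hn : ∀ a ∈ S, 0 ≤ n a)
    (hB : ∑ a ∈ S, n a ≤ B) (hq : 1 ≤ q) : ∑ a ∈ S, n a ^ q ≤ B ^ q := by
  have hB0 : 0 ≤ B := (Finset.sum_nonneg hn).trans hB
  calc ∑ a ∈ S, n a ^ q ≤ ∑ a ∈ S, B ^ (q - 1) * n a := Finset.sum_le_sum fun a ha =>
        rpow_le_mul (hn a ha) ((Finset.single_le_sum hn ha).trans hB) hq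
    _ = B ^ (q - 1) * ∑ a ∈ S, n a := (Finset.mul_sum _ _ _).symm
    _ ≤ B ^ (q - 1) * B := mul_le_mul_of_nonneg_left hB (by positivity)
    _ = B ^ q := rpow_sub_one_mul hB0 hq

theorem tz2q {q : ℝ} (hq : 1 ≤ q) (hq2 : q < 2) (h : Y7q q) : Z2q q := by
  obtain ⟨C₇, hC₇, H7⟩ := h
  obtain ⟨c, hc0, hc⟩ := log_rpow hq hq2
  have hq0 : 0 ≤ q := by linarith
  have hK : 0 ≤ 2 ^ q * (C₇ ^ q * c + 34 ^ q * C₇) := by positivity
  refine ⟨2 ^ q * (C₇ ^ q * c + 34 ^ q * C₇) + C₇ + 2, by linarith, fun M hM L hL => ?_⟩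
  have hM7 : C₇ ≤ M := by linarith
  have hM2 : (2 : ℝ) ≤ M := by linarith
  have hM0 : (0 : ℝ) < M := by linarith
  have hMn : 0 < M := by exact_mod_cast hM0
  obtain ⟨T, hT, H⟩ := H7 M hM7 L hL
  refine ⟨T, hT, ?_⟩
  intro lam s N p ρ φ hloc hTN hgr
  have hs := hloc.s_pos
  have hsl : 0 ≤ Real.sqrt lam * s := mul_nonneg (Real.sqrt_nonneg _) hs.le
  have hN0 : 0 ≤ N := by nlinarith
  have hlog : 0 ≤ Real.log M := Real.log_nonneg (by linarith)
  obtain ⟨B, hB0, hB⟩ := loc_bd hloc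
  have hposp : 0 < sn φ (closedBall p (2 * s)) :=
    hloc.pos p (2 * s) (by linarith) (closedBall_subset_closedBall (by linarith))
  have hposP : 0 < sn φ (closedBall p (32 * s)) := hloc.pos p (32 * s) (by linarith) subset_rfl
  have hstart : sn φ (closedBall p (32 * s)) ≤ Real.exp N * sn φ (closedBall p (2 * s)) := by
    rw [← div_le_iff₀ hposp]
    have h1 := Real.exp_le_exp.2 hgr
    unfold gr at h1
    rwa [Real.exp_log (div_pos hposP hposp)] at h1
  obtain ⟨ν, n, H2, H3, H4⟩ := H lam s N p ρ φ hloc hTN hstart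
  set r : ℝ := s / M with hr
  have hr0 : 0 < r := div_pos hs hM0
  have hrs : 2 * r ≤ s := by
    rw [hr, ← mul_div_assoc, div_le_iff₀ hM0]
    nlinarith
  have hsq2 : Real.sqrt 2 ≤ 2 := by
    rw [show (2 : ℝ) = Real.sqrt 4 by
      rw [show (4 : ℝ) = 2 ^ 2 by norm_num]; exact (Real.sqrt_sq (by norm_num)).symm]
    exact Real.sqrt_le_sqrt (by
      rw [show (4 : ℝ) = 2 ^ 2 by norm_num, Real.sqrt_sq (by norm_num)]; norm_num)
  have hcn : ∀ c ∈ gd M, ‖(s : ℂ) * ct M c‖ ≤ 2 * s := by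
    intro c hc
    rw [norm_mul, Complex.norm_real, Real.norm_of_nonneg hs.le]
    have := (ct_norm hc).trans hsq2
    nlinarith
  have hcin : ∀ c ∈ gd M, p + s * ct M c ∈ closedBall p (2 * s) := by
    intro c hc
    rw [mem_closedBall, dist_eq_norm]
    have e : p + s * ct M c - p = s * ct M c := by ring
    rw [e]
    exact hcn c hc
  have hcsub : ∀ c ∈ gd M, closedBall (p + s * ct M c) (32 * r) ⊆ closedBall p (32 * s) := by
    intro c hc
    refine closedBall_subset_closedBall' ?_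
    have := hcin c hc
    rw [mem_closedBall] at this
    linarith
  have hcpos : ∀ c ∈ gd M, ∀ t, 0 < t → t ≤ 32 * r → 0 < sn φ (closedBall (p + s * ct M c) t) := by
    intro c hc t ht ht'
    exact hloc.pos _ t ht ((closedBall_subset_closedBall ht').trans (hcsub c hc))
  have hsingle : ∀ c ∈ gd M, gr φ (p + s * ct M c) r ≤ n c + 34 * ‖ν c‖ * r := by
    intro c hc
    exact gr_le hr0 (fun x hx => hB x (hcsub c hc hx)) (hcpos c hc _ (by linarith) (by linarith))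
      (hcpos c hc _ (by linarith) le_rfl) (H2 c hc).2
  have hgr0 : ∀ c ∈ gd M, 0 ≤ gr φ (p + s * ct M c) r := by
    intro c hc
    have h2 := hcpos c hc (2 * r) (by linarith) (by linarith)
    unfold gr
    apply Real.log_nonneg
    rw [one_le_div h2]
    exact sn_le2 (sn_nonneg2 _ _) fun x hx => le_sn2 (fun y hy => hB y (hcsub c hc hy))
      (closedBall_subset_closedBall (by linarith) hx)
  have hpw : ∀ c ∈ gd M, gr φ (p + s * ct M c) r ^ q ≤ 2 ^ q * (n c ^ q + (34 * r) ^ q * ‖ν c‖ ^ q) := by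
    intro c hc
    have h1 := Real.rpow_le_rpow (hgr0 c hc) (hsingle c hc) hq0
    refine h1.trans ?_
    refine (add_rpow_le (H2 c hc).1 (by positivity) hq0).trans (le_of_eq ?_)
    rw [show 34 * ‖ν c‖ * r = (34 * r) * ‖ν c‖ by ring, Real.mul_rpow (by positivity) (norm_nonneg _)]
  have h1 : ∑ c ∈ gd M, n c ^ q ≤ (C₇ * (1 + Real.log M) * N) ^ q :=
    sum_rpow_le (fun c hc => (H2 c hc).1) H3 hq
  have hMM : (M : ℝ) ^ (2 - q) = M ^ 2 * ((M : ℝ) ^ q)⁻¹ := by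
    rw [Real.rpow_sub hM0, Real.rpow_two, div_eq_mul_inv]
  have h2 : (C₇ * (1 + Real.log M) * N) ^ q ≤ C₇ ^ q * c * (M ^ 2 * (N / M) ^ q) := by
    rw [Real.mul_rpow (by positivity) hN0, Real.mul_rpow (by positivity) (by positivity)]
    calc C₇ ^ q * (1 + Real.log M) ^ q * N ^ q ≤ C₇ ^ q * (c * (M : ℝ) ^ (2 - q)) * N ^ q := by
          apply mul_le_mul_of_nonneg_right _ (by positivity)
          exact mul_le_mul_of_nonneg_left (hc M (by linarith)) (by positivity)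
      _ = _ := by
        rw [hMM, Real.div_rpow hN0 hM0.le]
        ring
  have h3 : (34 * r) ^ q * (C₇ * M ^ 2 * (N / s) ^ q) = 34 ^ q * C₇ * (M ^ 2 * (N / M) ^ q) := by
    have e : (34 * r) ^ q * (N / s) ^ q = 34 ^ q * (N / M) ^ q := by
      rw [← Real.mul_rpow (by positivity) (by positivity), ← Real.mul_rpow (by positivity) (by positivity)]
      congr 1
      rw [hr]
      field_simp
    calc _ = C₇ * M ^ 2 * ((34 * r) ^ q * (N / s) ^ q) := by ring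
      _ = _ := by rw [e]; ring
  have hX : 0 ≤ (M : ℝ) ^ 2 * (N / M) ^ q := by positivity
  calc ∑ c ∈ gd M, gr φ (p + s * ct M c) r ^ q
      ≤ ∑ c ∈ gd M, 2 ^ q * (n c ^ q + (34 * r) ^ q * ‖ν c‖ ^ q) := Finset.sum_le_sum hpw
    _ = 2 ^ q * (∑ c ∈ gd M, n c ^ q + (34 * r) ^ q * ∑ c ∈ gd M, ‖ν c‖ ^ q) := by
      rw [← Finset.mul_sum, Finset.sum_add_distrib, ← Finset.mul_sum]
    _ ≤ 2 ^ q * (C₇ ^ q * c * (M ^ 2 * (N / M) ^ q) + (34 * r) ^ q * (C₇ * M ^ 2 * (N / s) ^ q)) := by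
      apply mul_le_mul_of_nonneg_left _ (by positivity)
      exact add_le_add (h1.trans h2) (mul_le_mul_of_nonneg_left H4 (by positivity))
    _ = 2 ^ q * (C₇ ^ q * c + 34 ^ q * C₇) * (M ^ 2 * (N / M) ^ q) := by rw [h3]; ring
    _ ≤ (2 ^ q * (C₇ ^ q * c + 34 ^ q * C₇) + C₇ + 2) * (M ^ 2 * (N / M) ^ q) := by
      apply mul_le_mul_of_nonneg_right _ hX
      linarith
    _ = _ := by ring

end Pool.Agent.Helper70x.AP
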