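import Pool.Agent.Helper70x.AP.Stm
import Pool.Agent.Q73.AD.TG3
import Pool.Agent.Q73.AD.TG4L

/-!
# The local form on a closed surface
-/

set_option autoImplicit false
open MeasureTheory Filter Topology Complex Metric
open scoped ContDiff

namespace Pool.Agent.Helper70x.AP

open Pool.Agent.Q73.NL Pool.Agent.Q73.AD

universe u v

/-- positivity and boundedness of an eigenfunction, from `G1` -/
lemma eig_pos (h1 : G1.{u, v}) {M : Type u} {ι : Type v} [MetricSpace M] [CompactSpace M] [ConnectedSpace M]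
    {U : ι → Set ℂ} {φ : ι → ℂ → M} {ρ : ι → ℂ → ℝ} (hA : Atl U φ ρ) {lam : ℝ} {f : M → ℝ}
    (hlam : 0 < lam) (hf : Eig U φ ρ lam f) (hne : ∃ x, f x ≠ 0) :
    BddAbove ((fun x => |f x|) '' Set.univ) ∧ ∀ (x : M) (r : ℝ), 0 < r → 0 < sn f (ball x r) := by
  refine ⟨isCompact_univ.bddAbove_image (TG4.cont hA hf).abs.continuousOn, ?_⟩
  have hb : BddAbove ((fun x => |f x|) '' Set.univ) :=
    isCompact_univ.bddAbove_image (TG4.cont hA hf).abs.continuousOn
  intro x r hr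
  obtain ⟨Cr, -, hgrr⟩ := h1 M ι U φ ρ hA r hr
  obtain ⟨x₀, hx₀⟩ := hne
  have h4 := (abs_pos.2 hx₀).trans_le ((TG4.le_sn hb x₀).trans (hgrr lam f hlam.le hf x))
  exact (mul_pos_iff_of_pos_left (Real.exp_pos _)).1 h4

/-- a positive lower bound for finitely many positive numbers -/
lemma fin_lower {n : ℕ} (R : Fin n → ℝ) (hR : ∀ a, 0 < R a) : ∃ R₀ : ℝ, 0 < R₀ ∧ ∀ a, R₀ ≤ R a := by
  have hs : 0 ≤ ∑ a, (R a)⁻¹ := Finset.sum_nonneg fun a _ => inv_nonneg.2 (hR a).le
  refine ⟨(1 + ∑ a, (R a)⁻¹)⁻¹, by positivity, fun a => ?_⟩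
  have h1 := TG4.le_sum_of (fun a => (R a)⁻¹) (fun a => inv_pos.2 (hR a)) a
  rw [inv_le_comm₀ (by positivity) (hR a)]
  exact h1

theorem tz4l {q : ℝ} (hq : 1 ≤ q) (h6 : Z6L q) (h1 : G1.{u, v}) (h2 : G2.{u, v}) : SurfLoc.{u, v} q := by
  classical
  intro M ι _ _ _ U φ ρ hA hρ
  obtain ⟨n, idx, z, R, c, L, δ, hG, hcov⟩ := h2 M ι U φ ρ hA
  obtain ⟨s₁, hs₁, H6⟩ := h6
  obtain ⟨R₀, hR₀, hRa⟩ := fin_lower R fun a => (hG a).R_pos
  have hM : Nonempty M := inferInstance
  obtain ⟨a₀, -⟩ := hcov hM.some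
  have hc := (hG a₀).c_pos
  have hc1 := (hG a₀).c_le
  have hδ := (hG a₀).δ_pos
  have hL := (hG a₀).L_ge
  have hR₀1 : R₀ ≤ 1 := (hRa a₀).trans (hG a₀).R_le
  have hqp : 0 < q := by linarith
  have hlog2 : 0 < Real.log 2 := Real.log_pos (by norm_num)
  have hc2 : c ^ 2 ≤ 1 := pow_le_one₀ hc.le hc1
  refine ⟨33 / c ^ 2, min δ (c * min s₁ (R₀ / 100)), ?_, by positivity, ?_⟩
  · rw [le_div_iff₀ (by positivity)]
    linarith
  intro C C₁ hC hC₁
  obtain ⟨A, C₀, hA0, hC₀, H⟩ := H6 L (c * C / 2) (2 * C / c) C₁ hL (by positivity)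
    (by
      rw [le_div_iff₀ hc]
      nlinarith [mul_pos hc hC]) hC₁
  refine ⟨A * (1 / Real.log 2) ^ q / c ^ 2, C₀ + 2 * C, by positivity, by positivity, ?_⟩
  intro lam f κ _ b x ϱ hlam hf hne hcard hb hϱ hCϱ
  obtain ⟨hbdd, hpos⟩ := eig_pos h1 hA hlam hf hne
  obtain ⟨Bf, hBf⟩ := hbdd
  have hBf' : ∀ x, |f x| ≤ Bf := fun x => hBf ⟨x, Set.mem_univ _, rfl⟩
  obtain ⟨sl, hsl⟩ : ∃ sl : ℝ, sl = Real.sqrt lam := ⟨_, rfl⟩
  rw [← hsl] at hcard hCϱ ⊢
  have hsl0 : 0 < sl := by rw [hsl]; exact Real.sqrt_pos.2 hlam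
  have hslsq : sl ^ 2 = lam := by rw [hsl]; exact Real.sq_sqrt hlam.le
  have hϱ0 : 0 < ϱ := by
    have : 0 < sl * ϱ := by linarith
    exact (mul_pos_iff_of_pos_left hsl0).1 this
  have hϱδ : ϱ ≤ δ := hϱ.trans (min_le_left _ _)
  obtain ⟨s, hs⟩ : ∃ s : ℝ, s = ϱ / c := ⟨_, rfl⟩
  have hs0 : 0 < s := by rw [hs]; positivity
  have hsm : s ≤ min s₁ (R₀ / 100) := by
    rw [hs, div_le_iff₀ hc]
    have := hϱ.trans (min_le_right _ _)
    linarith
  have hss₁ : s ≤ s₁ := hsm.trans (min_le_left _ _)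
  have hsR₀ : 100 * s ≤ R₀ := by
    have := hsm.trans (min_le_right _ _)
    linarith
  have hcs : c * s = ϱ := by rw [hs]; field_simp
  have hϱs : ϱ ≤ s := by
    rw [← hcs]
    nlinarith
  have h2C : 2 * (C / sl) ≤ ϱ := by
    have e : 2 * (C / sl) = 2 * C / sl := by ring
    rw [e, div_le_iff₀ hsl0]
    linarith
  have hClt : C / sl ≤ R₀ := by
    have : 0 < C / sl := by positivity
    linarith
  have h2Cδ : 2 * (C / sl) ≤ δ := h2C.trans hϱδ
  obtain ⟨a, w₀, hw₀, hφw₀⟩ := hcov x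
  have hGa := hG a
  have hRR := hRa a
  have hR := hGa.R_pos
  have hVn : ∀ y ∈ U (idx a), U (idx a) ∈ 𝓝 y := fun y hy => hGa.opn.mem_nhds hy
  have hw₀' : ‖w₀ - z a‖ ≤ R a := by rwa [mem_closedBall, dist_eq_norm] at hw₀
  have hw₀32 : w₀ ∈ closedBall (z a) (3 * R a / 2) := closedBall_subset_closedBall (by linarith) hw₀
  have hw₀2 : w₀ ∈ closedBall (z a) (2 * R a) := closedBall_subset_closedBall (by linarith) hw₀
  -- a disc contains the preimage of a small metric ball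
  have hsmall : ∀ w ∈ closedBall (z a) (3 * R a / 2), ∀ t, 0 < t →
      sn f (ball (φ (idx a) w) (min δ (c * t))) ≤ sn (fun w => f (φ (idx a) w)) (closedBall w t) := by
    intro w hw t ht
    refine sn_le2 (sn_nonneg2 _ _) fun x hx => ?_
    have hx1 : x ∈ ball (φ (idx a) w) δ := ball_subset_ball (min_le_left _ _) hx
    obtain ⟨w', hw', rfl⟩ := hGa.surj w hw hx1
    have h3 := (hGa.lip w' hw' w (closedBall_subset_closedBall (by linarith) hw)).1
    have h4 : dist (φ (idx a) w') (φ (idx a) w) < c * t := lt_of_lt_of_le hx (min_le_right _ _)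
    have h5 : ‖w' - w‖ < t := lt_of_mul_lt_mul_left (h3.trans_lt h4) hc.le
    have h6 : w' ∈ closedBall w t := by
      rw [mem_closedBall, dist_eq_norm]
      exact h5.le
    exact le_sn2 (f := fun w => f (φ (idx a) w)) (fun w' _ => hBf' (φ (idx a) w')) h6
  have hposd : ∀ w ∈ closedBall (z a) (3 * R a / 2), ∀ t, 0 < t →
      0 < sn (fun w => f (φ (idx a) w)) (closedBall w t) := by
    intro w hw t ht
    exact (hpos (φ (idx a) w) _ (lt_min hδ (by positivity))).trans_le (hsmall w hw t ht)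
  -- the position of the discs
  have hb' : ∀ i, ∃ y ∈ closedBall (z a) (2 * R a), φ (idx a) y = b i ∧ ‖y - w₀‖ ≤ s := by
    intro i
    have h3 : b i ∈ ball (φ (idx a) w₀) δ := by
      rw [hφw₀]
      exact ball_subset_ball hϱδ (hb i)
    obtain ⟨y, hy, hyb⟩ := hGa.surj w₀ hw₀32 h3
    refine ⟨y, hy, hyb, ?_⟩
    have h4 := (hGa.lip y hy w₀ hw₀2).1
    rw [hyb, hφw₀] at h4
    have h5 : dist (b i) x < ϱ := hb i
    rw [hs, le_div_iff₀ hc]
    linarith
  choose y hy2R hyb hyw using hb'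
  have hyR' : ∀ i, ‖y i - z a‖ ≤ R a + s := fun i => by
    have e : y i - z a = (y i - w₀) + (w₀ - z a) := by ring
    rw [e]
    refine (norm_add_le _ _).trans ?_
    linarith [hyw i]
  have hy32R : ∀ i, y i ∈ closedBall (z a) (3 * R a / 2) := fun i => by
    rw [mem_closedBall, dist_eq_norm]
    linarith [hyR' i]
  -- small discs
  have hin : ∀ i, ∀ w ∈ closedBall (y i) (c * C / 2 / sl), φ (idx a) w ∈ ball (b i) (C / sl) := by
    intro i w hw
    rw [mem_closedBall, dist_eq_norm] at hw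
    have hcs' : c * C / 2 / sl ≤ C / sl / 2 := by
      have : 0 < C / sl := by positivity
      have e : c * C / 2 / sl = c * (C / sl / 2) := by ring
      rw [e]
      nlinarith
    have hw2 : w ∈ closedBall (z a) (2 * R a) := by
      rw [mem_closedBall, dist_eq_norm]
      have e : w - z a = (w - y i) + (y i - z a) := by ring
      rw [e]
      refine (norm_add_le _ _).trans ?_
      linarith [hyR' i]
    have h1 := (hGa.lip w hw2 (y i) (hy2R i)).2
    rw [mem_ball, ← hyb i]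
    have h2 : c * dist (φ (idx a) w) (φ (idx a) (y i)) ≤ c * (C / sl / 2) := by
      refine (h1.trans hw).trans (le_of_eq ?_)
      ring
    have h3 : dist (φ (idx a) w) (φ (idx a) (y i)) ≤ C / sl / 2 := le_of_mul_le_mul_left h2 hc
    have h4 : 0 < C / sl := by positivity
    linarith
  -- large discs
  have hout : ∀ i, ∀ x ∈ ball (b i) (2 * (C / sl)), ∃ w ∈ closedBall (y i) (2 * C / c / sl),
      φ (idx a) w = x := by
    intro i x hx
    rw [← hyb i] at hx
    obtain ⟨w, hw, rfl⟩ := hGa.surj (y i) (hy32R i) (ball_subset_ball h2Cδ hx)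
    refine ⟨w, ?_, rfl⟩
    have h1 := (hGa.lip w hw (y i) (hy2R i)).1
    rw [mem_ball] at hx
    rw [mem_closedBall, dist_eq_norm]
    have h3 : c * ‖w - y i‖ ≤ c * (2 * C / c / sl) := by
      refine (h1.trans hx.le).trans (le_of_eq ?_)
      field_simp
    exact le_of_mul_le_mul_left h3 hc
  -- the doubling index of one disc
  set F : κ → ℝ := fun i => Real.log (sn (fun w => f (φ (idx a) w)) (closedBall (y i) (2 * C / c / sl)) /
    sn (fun w => f (φ (idx a) w)) (closedBall (y i) (c * C / 2 / sl))) with hF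
  have hdbl0 : ∀ i, 0 ≤ dbl f (b i) (C / sl) := fun i =>
    TG4.dbl_nonneg ⟨Bf, hBf⟩ (by positivity) hpos
  have hdbl : ∀ i, dbl f (b i) (C / sl) ≤ F i / Real.log 2 := by
    intro i
    have hr0 : 0 < C / sl := by positivity
    have h2 : sn f (ball (b i) (2 * (C / sl))) ≤
        sn (fun w => f (φ (idx a) w)) (closedBall (y i) (2 * C / c / sl)) := by
      refine sn_le2 (sn_nonneg2 _ _) fun x hx => ?_
      obtain ⟨w, hw, rfl⟩ := hout i x hx
      exact le_sn2 (f := fun w => f (φ (idx a) w)) (fun w' _ => hBf' (φ (idx a) w')) hw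
    have h3 : sn (fun w => f (φ (idx a) w)) (closedBall (y i) (c * C / 2 / sl)) ≤
        sn f (ball (b i) (C / sl)) := by
      refine sn_le2 (sn_nonneg2 _ _) fun w hw => ?_
      exact le_sn2 (fun x _ => hBf' x) (hin i w hw)
    have hp := hpos (b i) (C / sl) hr0
    have hp2 := hpos (b i) (2 * (C / sl)) (by linarith)
    have hp3 := hposd (y i) (hy32R i) (c * C / 2 / sl) (by positivity)
    unfold dbl Real.logb
    refine div_le_div_of_nonneg_right ?_ hlog2.le
    refine Real.log_le_log (div_pos hp2 hp) ?_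
    exact div_le_div₀ (sn_nonneg2 _ _) h2 hp3 h3
  have hF0 : ∀ i, 0 ≤ F i := fun i => by
    have h3 := (hdbl0 i).trans (hdbl i)
    rwa [le_div_iff₀ hlog2, zero_mul] at h3
  -- the square
  have hsub32 : closedBall w₀ (32 * s) ⊆ closedBall (z a) (3 * R a / 2) := by
    refine closedBall_subset_closedBall' ?_
    rw [dist_eq_norm]
    linarith
  have hsub2 : closedBall w₀ (32 * s) ⊆ closedBall (z a) (2 * R a) :=
    hsub32.trans (closedBall_subset_closedBall (by linarith))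
  have hloc : Loc lam L s w₀ (ρ (idx a)) (fun w => f (φ (idx a) w)) := by
    refine ⟨hlam, hs0, by linarith, ?_, ?_⟩
    · intro w hw
      have hw2 := hsub2 hw
      have hwV := hGa.sub hw2
      exact ⟨((hf (idx a)).1 w hwV).contDiffAt (hVn w hwV), (hGa.smooth w hwV).contDiffAt (hVn w hwV),
        hρ _ w hwV, (le_abs_self _).trans (hGa.bd w hw2).1, (hGa.bd w hw2).2, (hf (idx a)).2 w hwV⟩
    · intro w t ht hwt
      exact hposd w (hsub32 (hwt (mem_closedBall_self ht.le))) t ht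
  have hKϱ : sn (fun w => f (φ (idx a) w)) (closedBall w₀ (32 * s)) ≤ sn f (ball x (33 / c ^ 2 * ϱ)) := by
    refine sn_le2 (sn_nonneg2 _ _) fun w hw => ?_
    refine le_sn2 (fun x _ => hBf' x) ?_
    have h3 := (hGa.lip w (hsub2 hw) w₀ hw₀2).2
    rw [mem_closedBall, dist_eq_norm] at hw
    rw [mem_ball, ← hφw₀]
    have h4 : c * dist (φ (idx a) w) (φ (idx a) w₀) ≤ 32 * s := h3.trans hw
    have e : 33 / c ^ 2 * ϱ = 33 * s / c := by
      rw [← hcs]; field_simp
    rw [e, lt_div_iff₀ hc]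
    linarith
  have hϱ2 : sn f (ball x ϱ) ≤ sn (fun w => f (φ (idx a) w)) (closedBall w₀ (2 * s)) := by
    have h3 := hsmall w₀ hw₀32 (2 * s) (by positivity)
    rw [hφw₀] at h3
    refine le_trans ?_ h3
    refine TG4.sn_mono (ball_subset_ball ?_) ⟨x, mem_ball_self hϱ0⟩ ⟨Bf, hBf⟩
    refine le_min hϱδ ?_
    linarith
  have hxϱ := hpos x ϱ hϱ0
  have hgr : gr (fun w => f (φ (idx a) w)) w₀ s ≤ Real.log (sn f (ball x (33 / c ^ 2 * ϱ)) / sn f (ball x ϱ)) := by
    unfold gr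
    have hp32 := hposd w₀ hw₀32 (32 * s) (by positivity)
    have hp2 := hposd w₀ hw₀32 (2 * s) (by positivity)
    refine Real.log_le_log (div_pos hp32 hp2) ?_
    exact div_le_div₀ (sn_nonneg2 _ _) hKϱ hxϱ hϱ2
  have hgr0 : 0 ≤ gr (fun w => f (φ (idx a) w)) w₀ s := by
    unfold gr
    refine Real.log_nonneg ?_
    rw [one_le_div (hposd w₀ hw₀32 (2 * s) (by positivity))]
    refine sn_le2 (sn_nonneg2 _ _) fun w hw => ?_
    exact le_sn2 (f := fun w => f (φ (idx a) w)) (fun w' _ => hBf' (φ (idx a) w'))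
      (closedBall_subset_closedBall (by linarith) hw)
  have hC₀s : C₀ ≤ Real.sqrt lam * s := by
    rw [← hsl]
    have : sl * ϱ ≤ sl * s := mul_le_mul_of_nonneg_left hϱs hsl0.le
    linarith
  have hsum := H lam s w₀ (ρ (idx a)) (fun w => f (φ (idx a) w)) κ y hloc hss₁ hC₀s
    (fun i => ⟨by
      have := (Complex.abs_re_le_norm (y i - w₀)).trans (hyw i)
      exact this, by
      have := (Complex.abs_im_le_norm (y i - w₀)).trans (hyw i)
      exact this⟩)
    (fun w => by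
      refine le_trans ?_ (hcard (φ (idx a) w))
      rw [← hsl]
      have h1 : {i | ‖w - y i‖ ≤ c * C / 2 / sl} ⊆ {i | φ (idx a) w ∈ ball (b i) (C / sl)} := by
        intro i hi
        exact hin i w (by rw [mem_closedBall, dist_eq_norm]; exact hi)
      have h2 := Set.ncard_le_ncard h1 (Set.toFinite _)
      exact_mod_cast h2)
  rw [← hsl] at hsum
  obtain ⟨Γ, hΓ⟩ : ∃ Γ : ℝ, Γ = Real.log (sn f (ball x (33 / c ^ 2 * ϱ)) / sn f (ball x ϱ)) := ⟨_, rfl⟩
  rw [← hΓ] at hgr ⊢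
  have hslϱ : 0 < sl * ϱ := by positivity
  have hfrac : gr (fun w => f (φ (idx a) w)) w₀ s / (sl * s) ≤ Γ / (sl * ϱ) := by
    refine div_le_div₀ (hgr0.trans hgr) hgr hslϱ ?_
    exact mul_le_mul_of_nonneg_left hϱs hsl0.le
  have hfrac0 : 0 ≤ gr (fun w => f (φ (idx a) w)) w₀ s / (sl * s) := by positivity
  calc ∑ i, dbl f (b i) (C / sl) ^ q ≤ ∑ i, (F i / Real.log 2) ^ q :=
        Finset.sum_le_sum fun i _ => Real.rpow_le_rpow (hdbl0 i) (hdbl i) hqp.le
    _ = (∑ i, F i ^ q) * (1 / Real.log 2) ^ q := by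
        rw [Finset.sum_mul]
        refine Finset.sum_congr rfl fun i _ => ?_
        rw [← Real.mul_rpow (hF0 i) (by positivity)]
        congr 1
        ring
    _ ≤ (A * (lam * s ^ 2) * (1 + gr (fun w => f (φ (idx a) w)) w₀ s / (sl * s)) ^ q) *
          (1 / Real.log 2) ^ q := mul_le_mul_of_nonneg_right hsum (by positivity)
    _ ≤ (A * (lam * s ^ 2) * (1 + Γ / (sl * ϱ)) ^ q) * (1 / Real.log 2) ^ q := by
        gcongr
    _ = A * (1 / Real.log 2) ^ q / c ^ 2 * (lam * ϱ ^ 2) * (1 + Γ / (sl * ϱ)) ^ q := by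
        rw [hs]
        field_simp

end Pool.Agent.Helper70x.AP
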