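import Pool.Agent.Helper70x.AP.Z4l

/-!
# The moments of the doubling index on a closed surface, from the local form
-/

set_option autoImplicit false
open MeasureTheory Filter Topology Complex Metric
open scoped ContDiff

namespace Pool.Agent.Helper70x.AP

open Pool.Agent.Q73.NL Pool.Agent.Q73.AD

universe u v

theorem tz5l {q : ℝ} (hq : 1 ≤ q) (hL : SurfLoc.{u, v} q) (h1 : G1.{u, v}) : SurfGlob.{u, v} q := by
  classical
  intro M ι _ _ _ U φ ρ hA hρ C C₁ C₂ hC hC₁ hC₂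
  obtain ⟨K, ϱ₁, hK, hϱ₁, hKK⟩ := hL M ι U φ ρ hA hρ
  obtain ⟨A, C₀, hA0, hC₀, H⟩ := hKK C C₁ hC hC₁
  obtain ⟨Cg, hCg, hgr⟩ := h1 M ι U φ ρ hA ϱ₁ hϱ₁
  obtain ⟨Λ, hΛ⟩ : ∃ Λ : ℝ, Λ = 1 + (C₀ / ϱ₁) ^ 2 := ⟨_, rfl⟩
  have hΛ1 : 1 ≤ Λ := by
    rw [hΛ]
    linarith [sq_nonneg (C₀ / ϱ₁)]
  have hΛ0 : 0 < Λ := by linarith
  have hsΛ : 0 < √Λ := Real.sqrt_pos.2 hΛ0
  obtain ⟨Cg', hCg', hgr'⟩ := h1 M ι U φ ρ hA (C / √Λ) (by positivity)
  have hlog : 0 < Real.log 2 := Real.log_pos (by norm_num)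
  have hqp : 0 < q := by linarith
  obtain ⟨t, -, htf, htc⟩ := finite_cover_balls_of_compact (isCompact_univ (X := M)) hϱ₁
  obtain ⟨T, hT⟩ : ∃ T : Finset M, ∀ x, x ∈ T ↔ x ∈ t := ⟨htf.toFinset, fun x => htf.mem_toFinset⟩
  obtain ⟨B, hB⟩ : ∃ B : ℝ, B = A * ϱ₁ ^ 2 * (1 + 2 * Cg / ϱ₁) ^ q := ⟨_, rfl⟩
  have hB0 : 0 < B := by rw [hB]; positivity
  refine ⟨C₂ * (T.card * B) + (Cg' * (1 + √Λ) / Real.log 2) ^ q + 1, by positivity, ?_⟩
  intro lam f κ _ b hlam hf hne hnc hcard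
  obtain ⟨hb, hpos⟩ := eig_pos h1 hA hlam hf hne
  have hcardp : (0 : ℝ) < Fintype.card κ := lt_of_lt_of_le (by positivity) hcard
  have hsl : 0 < √lam := Real.sqrt_pos.2 hlam
  rcases le_or_gt Λ lam with hcase | hcase
  · -- large eigenvalues
    have hsl1 : 1 ≤ √lam := Real.one_le_sqrt.2 (hΛ1.trans hcase)
    have hC₀ϱ : C₀ ≤ √lam * ϱ₁ := by
      have h3 : C₀ / ϱ₁ ≤ √lam := by
        apply Real.le_sqrt_of_sq_le
        linarith
      rwa [div_le_iff₀ hϱ₁] at h3
    have hex : ∀ i : κ, ∃ x ∈ T, b i ∈ ball x ϱ₁ := by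
      intro i
      have h3 := htc (Set.mem_univ (b i))
      simp only [Set.mem_iUnion, exists_prop] at h3
      obtain ⟨x, hx, hbx⟩ := h3
      exact ⟨x, (hT x).2 hx, hbx⟩
    choose asg hasgT hasg using hex
    have hpart : ∀ x ∈ T, ∑ j ∈ Finset.univ.filter (fun j => asg j = x), dbl f (b j) (C / √lam) ^ q ≤
        B * lam := by
      intro x _
      have h3 := H lam f {j : κ // asg j = x} (fun j => b j) x ϱ₁ hlam hf hne
        (by
          intro y
          refine le_trans ?_ (hnc y)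
          have h5 : Set.ncard {j : {j : κ // asg j = x} | y ∈ ball (b j) (C / √lam)} ≤
              Set.ncard {j : κ | y ∈ ball (b j) (C / √lam)} := by
            rw [← Set.ncard_image_of_injective _ (Subtype.val_injective (p := fun j : κ => asg j = x))]
            apply Set.ncard_le_ncard _ (Set.toFinite _)
            rintro y ⟨w, hw, rfl⟩
            exact hw
          exact_mod_cast h5)
        (by
          rintro ⟨j, hj⟩
          have := hasg j
          rw [hj] at this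
          exact this) le_rfl hC₀ϱ
      rw [Finset.sum_subtype (Finset.univ.filter fun j => asg j = x) (p := fun j => asg j = x) (by simp)]
      refine h3.trans ?_
      have hKpos := hpos x (K * ϱ₁) (by positivity)
      have hϱpos := hpos x ϱ₁ hϱ₁
      have h4 : Real.log (sn f (ball x (K * ϱ₁)) / sn f (ball x ϱ₁)) ≤ Cg * (1 + √lam) := by
        rw [Real.log_le_iff_le_exp (div_pos hKpos hϱpos), div_le_iff₀ hϱpos]
        exact (TG4.sn_mono (Set.subset_univ _) ⟨x, mem_ball_self (by positivity)⟩ hb).trans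
          (hgr lam f hlam.le hf x)
      have h40 : 0 ≤ Real.log (sn f (ball x (K * ϱ₁)) / sn f (ball x ϱ₁)) := by
        refine Real.log_nonneg ?_
        rw [one_le_div hϱpos]
        refine TG4.sn_mono (ball_subset_ball ?_) ⟨x, mem_ball_self hϱ₁⟩ hb
        nlinarith
      have h5 : Real.log (sn f (ball x (K * ϱ₁)) / sn f (ball x ϱ₁)) / (√lam * ϱ₁) ≤ 2 * Cg / ϱ₁ := by
        rw [div_le_div_iff₀ (by positivity) hϱ₁]
        have h6 : Real.log (sn f (ball x (K * ϱ₁)) / sn f (ball x ϱ₁)) ≤ 2 * Cg * √lam := by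
          refine h4.trans ?_
          nlinarith
        nlinarith
      have h50 : 0 ≤ Real.log (sn f (ball x (K * ϱ₁)) / sn f (ball x ϱ₁)) / (√lam * ϱ₁) := by positivity
      calc A * (lam * ϱ₁ ^ 2) * (1 + Real.log (sn f (ball x (K * ϱ₁)) / sn f (ball x ϱ₁)) / (√lam * ϱ₁)) ^ q
          ≤ A * (lam * ϱ₁ ^ 2) * (1 + 2 * Cg / ϱ₁) ^ q := by gcongr
        _ = B * lam := by rw [hB]; ring
    have hsum : ∑ j, dbl f (b j) (C / √lam) ^ q ≤ T.card * B * lam := by
      have e1 : ∑ j, dbl f (b j) (C / √lam) ^ q =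
          ∑ x ∈ T, ∑ j ∈ Finset.univ.filter (fun j => asg j = x), dbl f (b j) (C / √lam) ^ q :=
        (Finset.sum_fiberwise_of_maps_to (fun j _ => hasgT j) _).symm
      rw [e1]
      refine (Finset.sum_le_sum hpart).trans (le_of_eq ?_)
      rw [Finset.sum_const, nsmul_eq_mul]
      ring
    rw [div_le_iff₀ hcardp]
    calc ∑ j, dbl f (b j) (C / √lam) ^ q ≤ T.card * B * lam := hsum
      _ = (C₂ * (T.card * B)) * (C₂⁻¹ * lam) := by
          field_simp
      _ ≤ (C₂ * (T.card * B) + (Cg' * (1 + √Λ) / Real.log 2) ^ q + 1) * Fintype.card κ := by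
          have h6 : 0 ≤ (Cg' * (1 + √Λ) / Real.log 2) ^ q := by positivity
          gcongr
          linarith
  · -- small eigenvalues
    have hd : ∀ j, dbl f (b j) (C / √lam) ≤ Cg' * (1 + √Λ) / Real.log 2 := by
      intro j
      apply TG4.dbl_le hb (r' := C / √Λ) (by positivity)
        (div_le_div_of_nonneg_left hC.le hsl (Real.sqrt_le_sqrt hcase.le)) (hpos (b j))
      refine (hgr' lam f hlam.le hf (b j)).trans ?_
      apply mul_le_mul_of_nonneg_right _ (hpos (b j) _ (by positivity)).le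
      apply Real.exp_le_exp.2
      apply mul_le_mul_of_nonneg_left _ hCg'.le
      have := Real.sqrt_le_sqrt hcase.le
      linarith
    have hd0 : ∀ j, 0 ≤ dbl f (b j) (C / √lam) := fun j => TG4.dbl_nonneg hb (by positivity) hpos
    have hsum : ∑ j, dbl f (b j) (C / √lam) ^ q ≤ Fintype.card κ * (Cg' * (1 + √Λ) / Real.log 2) ^ q := by
      refine (Finset.sum_le_card_nsmul _ _ _ fun j _ => Real.rpow_le_rpow (hd0 j) (hd j) hqp.le).trans ?_
      rw [nsmul_eq_mul, Finset.card_univ]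
    rw [div_le_iff₀ hcardp]
    refine hsum.trans ?_
    rw [mul_comm]
    apply mul_le_mul_of_nonneg_right _ hcardp.le
    have h7 : 0 ≤ C₂ * (T.card * B) := by positivity
    linarith

end Pool.Agent.Helper70x.AP
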