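import Pool.Agent.Helper70x.AP.Stm
import Pool.Agent.Q73.AD.YZ6

/-!
# From squares to small discs, `q`-th powers
-/

set_option autoImplicit false
open MeasureTheory Filter Topology Complex Metric
open scoped ContDiff

namespace Pool.Agent.Helper70x.AP

open Pool.Agent.Q73.NL Pool.Agent.Q73.AD
open Pool.Agent.Q73.AD.TZ6

theorem tz6l {q : ℝ} (hq : 1 ≤ q) (h1 : Z1L q) (h2 : Z2) : Z6L q := by
  classical
  obtain ⟨M, s₁, hM2, hs₁, hZ1⟩ := h1
  obtain ⟨C2, hC2, hZ2⟩ := h2
  refine ⟨s₁, hs₁, ?_⟩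
  intro L r R C₁ hL hr hrR hC₁
  have hR : 0 < R := hr.trans_le hrR
  have hqp : 0 < q := by linarith
  obtain ⟨C, A, hC, hA, hZ⟩ := hZ1 L hL
  have hMr : (2 : ℝ) ≤ M := by exact_mod_cast hM2
  have hM0 : (0 : ℝ) < M := by linarith
  obtain ⟨C', hC'⟩ : ∃ C' : ℝ, C' = C + R + r + 1 := ⟨_, rfl⟩
  have hC'0 : 0 < C' := by rw [hC']; positivity
  obtain ⟨m, hm⟩ : ∃ m : ℕ, m = ⌈C2 + 2 * (M * C' / r)⌉₊ + 4 := ⟨_, rfl⟩
  have hm1 : C2 + 2 * (M * C' / r) + 4 ≤ m := by
    rw [hm]; push_cast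
    linarith [Nat.le_ceil (C2 + 2 * (M * C' / r))]
  have hq0 : 0 < M * C' / r := by positivity
  have hm4 : (4 : ℝ) ≤ m := by linarith
  have hmC : C2 ≤ m := by linarith
  have hmr : 2 * (M * C' / r) ≤ m := by linarith
  have hm0 : (0 : ℝ) < m := by linarith
  have hm0' : 0 < m := by exact_mod_cast hm0
  obtain ⟨T, hT, hZ2'⟩ := hZ2 m hmC L hL
  obtain ⟨D, hD⟩ : ∃ D : ℝ, D = C2 * (1 + Real.log m) := ⟨_, rfl⟩
  have hlogm : 0 ≤ Real.log m := Real.log_nonneg (by linarith)
  have hD0 : 0 < D := by rw [hD]; positivity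
  refine ⟨C₁ * (m ^ 2 * (2 ^ q * D ^ q * (A * (M * C') ^ q + (T * (1 + M * C')) ^ q))) / C' ^ 2, C',
    by positivity, hC'0, ?_⟩
  intro lam s p ρ φ κ _ w hloc hss₁ hlam hw hcard
  have hs := hloc.s_pos
  have hlam0 : 0 < lam := hloc.lam_pos
  obtain ⟨sl, hsl⟩ : ∃ sl : ℝ, sl = Real.sqrt lam := ⟨_, rfl⟩
  rw [← hsl] at hlam hcard ⊢
  have hsl0 : 0 < sl := by rw [hsl]; exact Real.sqrt_pos.2 hlam0
  have hslsq : sl ^ 2 = lam := by rw [hsl]; exact Real.sq_sqrt hlam0.le
  have hx1 : 1 ≤ sl * s / C' := by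
    rw [le_div_iff₀ hC'0, one_mul]
    exact hlam
  obtain ⟨J, hJ1, hJ2⟩ := exists_nat_pow_near hx1 (show (1 : ℝ) < M by linarith)
  obtain ⟨n, hn⟩ : ∃ n : ℕ, n = M ^ J := ⟨_, rfl⟩
  have hncast : (n : ℝ) = (M : ℝ) ^ J := by rw [hn]; push_cast; rfl
  have hn0 : 0 < n := by rw [hn]; positivity
  have hn0' : (0 : ℝ) < n := by exact_mod_cast hn0
  obtain ⟨t, ht⟩ : ∃ t : ℝ, t = s / n := ⟨_, rfl⟩
  have ht0 : 0 < t := by rw [ht]; positivity
  have hst : s = n * t := by rw [ht]; field_simp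
  -- the scale
  have hlow : C' ≤ sl * t := by
    rw [le_div_iff₀ hC'0, ← hncast] at hJ1
    rw [ht, mul_div_assoc', le_div_iff₀ hn0']
    linarith
  have hupp : sl * t < M * C' := by
    rw [div_lt_iff₀ hC'0, pow_succ, ← hncast] at hJ2
    rw [ht, mul_div_assoc', div_lt_iff₀ hn0']
    linarith
  have hZa := hZ lam s p ρ φ J hloc hss₁ (by
    rw [← hsl, ← hncast, ← ht]
    refine le_trans ?_ hlow
    rw [hC']; linarith)
  rw [← hsl, ← hncast, ← ht, ← hn] at hZa
  -- positions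
  have hRt : R / sl ≤ t := by
    rw [div_le_iff₀ hsl0]
    have : R ≤ C' := by rw [hC']; linarith
    linarith
  have hrt : r / sl ≤ t := by
    rw [div_le_iff₀ hsl0]
    have : r ≤ C' := by rw [hC']; linarith
    linarith
  have htm : 2 * (t / m) ≤ r / sl := by
    rw [le_div_iff₀ hsl0]
    have e : 2 * (t / m) * sl = 2 * (sl * t) / m := by ring
    rw [e, div_le_iff₀ hm0]
    have h5 : 2 * (M * C' / r) * r = 2 * (M * C') := by field_simp
    have h6 := mul_le_mul_of_nonneg_right hmr hr.le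
    rw [h5] at h6
    linarith
  choose b hb hbw using fun i => pos_ct (n := n * m) (by positivity) hs (hw i).1 (hw i).2
  have hbw' : ∀ i, ‖w i - (p + s * ct (n * m) (b i))‖ ≤ 2 * (t / m) := by
    intro i
    refine (hbw i).trans (le_of_eq ?_)
    rw [ht]; push_cast
    field_simp
  have ha : ∀ i, anc m (b i) ∈ gd n := fun i => anc_mem (hb i)
  have hc : ∀ i, md m (b i) ∈ gd m := fun i => md_mem hm0' _
  have hdist : ∀ i, ‖w i - (p + s * ct n (anc m (b i)))‖ ≤ 2 * t := by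
    intro i
    have e0 : ct (n * m) (b i) = ct n (anc m (b i)) + (1 / (n : ℝ) : ℝ) * ct m (md m (b i)) := by
      conv_lhs => rw [← ch_anc_md m (b i)]
      exact ct_ch hn0 hm0' _ _
    have e1 : (w i - (p + s * ct n (anc m (b i)))) =
        (w i - (p + s * ct (n * m) (b i))) + (t : ℂ) * ct m (md m (b i)) := by
      rw [e0, ht]
      push_cast
      ring
    rw [e1]
    refine (norm_add_le _ _).trans ?_
    rw [norm_mul, Complex.norm_of_nonneg ht0.le]
    have h5 := hbw' i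
    have h6 := ct_norm (hc i)
    have h7 : Real.sqrt 2 ≤ 3 / 2 := by
      rw [Real.sqrt_le_left (by norm_num)]; norm_num
    have h8 : t / m ≤ t / 4 := div_le_div_of_nonneg_left ht0.le (by norm_num) hm4
    have h9 : t * ‖ct m (md m (b i))‖ ≤ t * (3 / 2) := mul_le_mul_of_nonneg_left (h6.trans h7) ht0.le
    linarith
  -- the growth exponents of the squares
  obtain ⟨g, hg⟩ : ∃ g : ℕ × ℕ → ℝ, g = fun a => gr φ (p + s * ct n a) t := ⟨_, rfl⟩
  have hloca : ∀ a ∈ gd n, Loc lam L t (p + s * ct n a) ρ φ := by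
    intro a ha'
    rw [ht]
    exact loc_sub hloc ha'
  have hg0 : ∀ a ∈ gd n, 0 ≤ g a := by
    intro a ha'
    rw [hg]
    exact gr_nonneg (hloca a ha')
  have hterm : ∀ i, Real.log (sn φ (closedBall (w i) (R / sl)) / sn φ (closedBall (w i) (r / sl))) ≤
      D * (g (anc m (b i)) + T * (1 + sl * t)) := by
    intro i
    have hl := hloca _ (ha i)
    obtain ⟨B, hB⟩ := loc_bd hl
    have hgi := hg0 _ (ha i)
    have hT0 : 0 ≤ T * (1 + sl * t) := by positivity
    have h5 := (hZ2' lam t (g (anc m (b i)) + T * (1 + sl * t)) (p + s * ct n (anc m (b i))) ρ φ hl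
      (by rw [← hsl]; linarith) (by
        have h6 : g (anc m (b i)) = gr φ (p + s * ct n (anc m (b i))) t := by rw [hg]
        rw [h6]; linarith)).1 (w i)
      (by rw [mem_closedBall, dist_eq_norm]; exact hdist i)
    rw [← hD] at h5
    have hsub1 : closedBall (w i) (R / sl) ⊆ closedBall (p + s * ct n (anc m (b i))) (32 * t) := by
      refine closedBall_subset_closedBall' ?_
      rw [dist_eq_norm]
      linarith [hdist i]
    have hsub2 : closedBall (w i) (r / sl) ⊆ closedBall (p + s * ct n (anc m (b i))) (32 * t) := by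
      refine closedBall_subset_closedBall' ?_
      rw [dist_eq_norm]
      linarith [hdist i]
    have hsub3 : closedBall (w i) (t / m) ⊆ closedBall (w i) (r / sl) := by
      apply closedBall_subset_closedBall
      have : 0 < t / m := by positivity
      linarith
    have hp1 := hl.pos (w i) (R / sl) (by positivity) hsub1
    have hp2 := hl.pos (w i) (r / sl) (by positivity) hsub2
    rw [Real.log_le_iff_le_exp (div_pos hp1 hp2), div_le_iff₀ hp2]
    calc _ ≤ _ := sn_mono' hB hsub1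
      _ ≤ _ := h5
      _ ≤ _ := by
        apply mul_le_mul_of_nonneg_left _ (Real.exp_pos _).le
        exact sn_mono' (fun z hz => hB z (hsub2 hz)) hsub3
  -- counting
  have hcnt : ∀ b₀ : ℕ × ℕ, ((Finset.univ.filter fun i => b i = b₀).card : ℝ) ≤ C₁ := by
    intro b₀
    refine le_trans ?_ (hcard (p + s * ct (n * m) b₀))
    rw [← Set.ncard_coe_finset]
    have : ((Finset.univ.filter fun i => b i = b₀) : Set κ) ⊆
        {i | ‖(p + s * ct (n * m) b₀) - w i‖ ≤ r / sl} := by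
      intro i hi
      have hi' : b i = b₀ := by simpa using hi
      have h5 := hbw' i
      rw [hi', norm_sub_rev] at h5
      exact h5.trans htm
    exact_mod_cast Set.ncard_le_ncard this (Set.toFinite _)
  obtain ⟨F, hF⟩ : ∃ F : ℕ × ℕ → ℝ, F = fun a => (D * (g a + T * (1 + sl * t))) ^ q := ⟨_, rfl⟩
  have hF0 : ∀ a ∈ gd n, 0 ≤ F a := by
    intro a ha'
    rw [hF]
    have := hg0 a ha'
    positivity
  have hlog0 : ∀ i, 0 ≤ Real.log (sn φ (closedBall (w i) (R / sl)) / sn φ (closedBall (w i) (r / sl))) := by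
    intro i
    have hl := hloca _ (ha i)
    obtain ⟨B, hB⟩ := loc_bd hl
    have hsub1 : closedBall (w i) (R / sl) ⊆ closedBall (p + s * ct n (anc m (b i))) (32 * t) := by
      refine closedBall_subset_closedBall' ?_
      rw [dist_eq_norm]
      linarith [hdist i]
    have hsub2 : closedBall (w i) (r / sl) ⊆ closedBall (w i) (R / sl) :=
      closedBall_subset_closedBall (div_le_div_of_nonneg_right hrR hsl0.le)
    have hp2 := hl.pos (w i) (r / sl) (by positivity) (hsub2.trans hsub1)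
    apply Real.log_nonneg
    rw [one_le_div hp2]
    exact sn_mono' (fun z hz => hB z (hsub1 hz)) hsub2
  have hsum1 : ∑ i, F (anc m (b i)) ≤ C₁ * ∑ b₀ ∈ gd (n * m), F (anc m b₀) := by
    rw [← Finset.sum_fiberwise_of_maps_to (s := Finset.univ) (t := gd (n * m)) (g := b)
      (fun i _ => hb i), Finset.mul_sum]
    refine Finset.sum_le_sum fun b₀ hb₀ => ?_
    have e3 : ∑ i ∈ Finset.univ.filter (fun i => b i = b₀), F (anc m (b i)) =
        ((Finset.univ.filter (fun i => b i = b₀)).card : ℝ) * F (anc m b₀) := by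
      rw [← nsmul_eq_mul, ← Finset.sum_const]
      refine Finset.sum_congr rfl fun i hi => ?_
      rw [Finset.mem_filter] at hi
      rw [hi.2]
    rw [e3]
    exact mul_le_mul_of_nonneg_right (hcnt b₀) (hF0 _ (anc_mem hb₀))
  have hsum2 : ∑ b₀ ∈ gd (n * m), F (anc m b₀) = (m : ℝ) ^ 2 * ∑ a ∈ gd n, F a := by
    rw [sum_gd_mul, Finset.mul_sum]
    refine Finset.sum_congr rfl fun a _ => ?_
    have : ∑ c ∈ gd m, F (anc m (ch m a c)) = ∑ c ∈ gd m, F a :=
      Finset.sum_congr rfl fun c hc' => by rw [anc_ch hc']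
    rw [this, Finset.sum_const, gd_card, nsmul_eq_mul]
    push_cast
    ring
  have hn2 : (n : ℝ) ^ 2 ≤ lam * s ^ 2 / C' ^ 2 := by
    have h5 : (n : ℝ) * C' ≤ s * sl := by
      rw [hst]
      calc (n : ℝ) * C' ≤ n * (sl * t) := mul_le_mul_of_nonneg_left hlow hn0'.le
        _ = n * t * sl := by ring
    have h6 : ((n : ℝ) * C') ^ 2 ≤ (s * sl) ^ 2 := pow_le_pow_left₀ (by positivity) h5 2
    rw [mul_pow, mul_pow, hslsq] at h6
    rw [le_div_iff₀ (by positivity)]
    linarith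
  obtain ⟨N, hN⟩ : ∃ N : ℝ, N = gr φ p s := ⟨_, rfl⟩
  have hN0 : 0 ≤ N := by rw [hN]; exact gr_nonneg hloc
  rw [← hN] at hZa ⊢
  obtain ⟨X, hX⟩ : ∃ X : ℝ, X = 1 + N / (sl * s) := ⟨_, rfl⟩
  have hX1 : 1 ≤ X := by
    rw [hX]
    have : 0 ≤ N / (sl * s) := by positivity
    linarith
  have hXq : 1 ≤ X ^ q := Real.one_le_rpow hX1 hqp.le
  rw [← hX]
  have hsum3 : ∑ a ∈ gd n, F a ≤
      (n : ℝ) ^ 2 * (2 ^ q * D ^ q * (A * (M * C') ^ q + (T * (1 + M * C')) ^ q)) * X ^ q := by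
    have hFa : ∀ a ∈ gd n, F a ≤ 2 ^ q * D ^ q * (g a ^ q + (T * (1 + M * C')) ^ q) := by
      intro a ha'
      have h5 : 0 ≤ g a := hg0 a ha'
      rw [hF]
      simp only
      rw [Real.mul_rpow hD0.le (by positivity)]
      have h6 : (g a + T * (1 + sl * t)) ^ q ≤ 2 ^ q * (g a ^ q + (T * (1 + M * C')) ^ q) := by
        refine (Real.rpow_le_rpow (by positivity) ?_ hqp.le).trans (add_rpow_le h5 (by positivity) hqp.le)
        have : T * (1 + sl * t) ≤ T * (1 + M * C') := by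
          apply mul_le_mul_of_nonneg_left _ (by linarith)
          linarith
        linarith
      calc D ^ q * (g a + T * (1 + sl * t)) ^ q ≤
          D ^ q * (2 ^ q * (g a ^ q + (T * (1 + M * C')) ^ q)) := mul_le_mul_of_nonneg_left h6 (by positivity)
        _ = _ := by ring
    have e2 : (M : ℝ) ^ (2 * J) = (n : ℝ) ^ 2 := by
      rw [hncast, ← pow_mul, mul_comm]
    have h5 : ∑ a ∈ gd n, g a ^ q ≤ A * n ^ 2 * ((M * C') ^ q * X ^ q) := by
      rw [e2] at hZa
      have h6 : ((sl * s + N) / n) ^ q ≤ (M * C') ^ q * X ^ q := by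
        rw [← Real.mul_rpow (by positivity) (by linarith)]
        apply Real.rpow_le_rpow (by positivity) _ hqp.le
        have e : (sl * s + N) / n = sl * t * X := by
          rw [hX, ht]
          field_simp
        rw [e]
        exact mul_le_mul_of_nonneg_right hupp.le (by linarith)
      rw [hg]
      exact hZa.trans (mul_le_mul_of_nonneg_left h6 (by positivity))
    have h6 : (n : ℝ) ^ 2 * (T * (1 + M * C')) ^ q ≤ n ^ 2 * ((T * (1 + M * C')) ^ q * X ^ q) := by
      apply mul_le_mul_of_nonneg_left _ (by positivity)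
      exact le_mul_of_one_le_right (by positivity) hXq
    calc ∑ a ∈ gd n, F a ≤ ∑ a ∈ gd n, 2 ^ q * D ^ q * (g a ^ q + (T * (1 + M * C')) ^ q) :=
          Finset.sum_le_sum hFa
      _ = 2 ^ q * D ^ q * (∑ a ∈ gd n, g a ^ q + n ^ 2 * (T * (1 + M * C')) ^ q) := by
          rw [← Finset.mul_sum, Finset.sum_add_distrib, Finset.sum_const, gd_card, nsmul_eq_mul]
          push_cast
          ring
      _ ≤ 2 ^ q * D ^ q * (A * n ^ 2 * ((M * C') ^ q * X ^ q) + n ^ 2 * ((T * (1 + M * C')) ^ q * X ^ q)) := by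
          apply mul_le_mul_of_nonneg_left _ (by positivity)
          linarith
      _ = _ := by ring
  calc ∑ i, Real.log (sn φ (closedBall (w i) (R / sl)) / sn φ (closedBall (w i) (r / sl))) ^ q
      ≤ ∑ i, F (anc m (b i)) := Finset.sum_le_sum fun i _ => by
        rw [hF]; exact Real.rpow_le_rpow (hlog0 i) (hterm i) hqp.le
    _ ≤ C₁ * ((m : ℝ) ^ 2 * ∑ a ∈ gd n, F a) := by rw [← hsum2]; exact hsum1
    _ ≤ C₁ * ((m : ℝ) ^ 2 * ((n : ℝ) ^ 2 * (2 ^ q * D ^ q * (A * (M * C') ^ q + (T * (1 + M * C')) ^ q)) *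
          X ^ q)) := by
        apply mul_le_mul_of_nonneg_left _ hC₁.le
        exact mul_le_mul_of_nonneg_left hsum3 (by positivity)
    _ = C₁ * (m ^ 2 * (2 ^ q * D ^ q * (A * (M * C') ^ q + (T * (1 + M * C')) ^ q))) * X ^ q *
          (n : ℝ) ^ 2 := by ring
    _ ≤ C₁ * (m ^ 2 * (2 ^ q * D ^ q * (A * (M * C') ^ q + (T * (1 + M * C')) ^ q))) * X ^ q *
          (lam * s ^ 2 / C' ^ 2) := by
        apply mul_le_mul_of_nonneg_left hn2
        positivity
    _ = _ := by ring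

end Pool.Agent.Helper70x.AP
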