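import Pool.Agent.Q73.AD.Fin
import Pool.Agent.Helper70x.AP.PCq
import Pool.Agent.Helper70x.AP.PTRq
import Pool.Agent.Helper70x.AP.YLq
import Pool.Agent.Helper70x.AP.Y5q
import Pool.Agent.Helper70x.AP.Y7q
import Pool.Agent.Helper70x.AP.Z2q
import Pool.Agent.Helper70x.AP.Z1a
import Pool.Agent.Helper70x.AP.Z6l
import Pool.Agent.Helper70x.AP.Z4l
import Pool.Agent.Helper70x.AP.Z5l

/-!
# Assembly: moments of the doubling index of order `q < 2`, at every scale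
-/

set_option autoImplicit false

namespace Pool.Agent.Helper70x.AP

open Pool.Agent.Q73.AD

universe u v

theorem fin_z1q {q : ℝ} (hq : 1 ≤ q) (hq2 : q < 2) : Z1q q := by
  have h5 : Y5q q := ty5q hq (tylq hq (tptrq hq tpa tpb tpc (tpcq hq hq2)) tc4 fin_c5) tb1.{0} tb2.{0}
    fin_c1 tc2 tcj
  exact tz1q hq hq2 fin_z2 (tz2q hq hq2 (ty7q h5)) fin_y9 ty10 tz3 fin_k7

theorem fin_loc {q : ℝ} (hq : 1 ≤ q) (hq2 : q < 2) : SurfLoc.{u, v} q :=
  tz4l hq (tz6l hq (tz1l (fin_z1q hq hq2)) fin_z2) fin_g1.{u, v} tg2.{u, v}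

theorem fin_glob {q : ℝ} (hq : 1 ≤ q) (hq2 : q < 2) : SurfGlob.{u, v} q :=
  tz5l hq (fin_loc.{u, v} hq hq2) fin_g1.{u, v}

end Pool.Agent.Helper70x.AP
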