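import Pool.Agent.Q73.AD.StmZ

/-!
# Moments of the doubling index of order `q < 2`: statements of the steps

These are the `q`-th power versions of the statements `PC`, `PTR`, `YL`, `Y5`, `Y7`, `Z2`, `Z1`, `Z6` of
`Pool.Agent.Q73.AD` (average doubling index), for `1 ≤ q < 2`. The new point in the potential theory is that the
gradient of a logarithmic potential is in `L^q` for every `q < 2`, with constants which do not depend on the number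
`M ^ 2` of subsquares. The stopping time lemma `K7` is applied to the `q`-th powers of the rates. The conclusion for
squares (`Z1L`) holds at every scale and for every solution, with no bound for the growth exponent: a solution of
`Δφ + lam ρ φ = 0` is also a solution for every larger `lam`, with a smaller `ρ`.
-/

set_option autoImplicit false
open MeasureTheory Filter Topology Complex Metric
open scoped ContDiff ComplexConjugate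

namespace Pool.Agent.Helper70x.AP

open Pool.Agent.Q73.NL Pool.Agent.Q73.AD

noncomputable section

universe u v

/-- PC, `q`-th powers: sums over separated points -/
def PCq (q : ℝ) : Prop := ∃ C : ℝ, 1 ≤ C ∧ ∀ (M : ℕ) (S : Finset (ℕ × ℕ)) (p : ℕ × ℕ → ℂ), 1 ≤ M →
  (∀ a ∈ S, ‖p a‖ ≤ 2) → (∀ a ∈ S, ∀ b ∈ S, a ≠ b → 1 / (M : ℝ) ≤ ‖p a - p b‖) →
  ∀ y : ℂ, ∑ a ∈ S, ((M : ℝ) / (1 + M * ‖p a - y‖)) ^ q ≤ C * M ^ 2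

/-- PTR, `q`-th powers: oscillation of a subharmonic function minus suitable linear functions on small discs -/
def PTRq (q : ℝ) : Prop := ∀ D : ℝ, 1 ≤ D → ∃ C : ℝ, 1 ≤ C ∧ ∀ (M : ℕ) (A b : ℝ) (v : ℂ → ℝ)
  (S : Finset (ℕ × ℕ)) (p : ℕ × ℕ → ℂ), C ≤ M → 1 ≤ A → Measurable v →
  (∀ z, -b ≤ v z ∧ v z ≤ 0) →
  (∀ x ∈ ball (0 : ℂ) 6, ∀ r : ℝ, 0 < r → r ≤ 1 →
    v x * (Real.pi * r ^ 2) ≤ ∫ y in ball x r, v y) →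
  ∫ x in ball (0 : ℂ) 8, -v x ≤ A →
  (∀ a ∈ S, ‖p a‖ ≤ 2) → (∀ a ∈ S, ∀ b ∈ S, a ≠ b → 1 / (M : ℝ) ≤ ‖p a - p b‖) →
  ∃ (ζ : ℕ × ℕ → ℂ) (n : ℕ × ℕ → ℝ), (∀ a ∈ S, 0 ≤ n a) ∧
    ∑ a ∈ S, n a ≤ C * A * (1 + Real.log M) ∧ ∑ a ∈ S, ‖ζ a‖ ^ q ≤ C * A ^ q * M ^ 2 ∧
    ∀ a ∈ S, ∃ y ∈ ball (p a) (1 / M), ∀ x ∈ closedBall (p a) (D / M),
      v x - (conj (ζ a) * x).re ≤ n a + (v y - (conj (ζ a) * y).re)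

/-- YL, `q`-th powers: the limit form of the one-step lemma -/
def YLq (q : ℝ) : Prop := ∃ C : ℝ, 1 ≤ C ∧ ∀ (M : ℕ) (σ : ℝ) (w : ℂ → ℝ) (x₁ : ℂ), C ≤ M → 1 ≤ σ → σ ^ 2 ≤ 2 →
  (∀ x ∈ ball (0 : ℂ) 32, 0 ≤ w x ∧ w x ≤ 1) → UpperSemicontinuousOn w (ball 0 32) →
  NC {z | st σ z ∈ ball (0 : ℂ) 32} (fun z => w (st σ z)) →
  ‖x₁‖ ≤ 2 → Real.exp (-1) ≤ w x₁ →
  ∀ (S : Finset (ℕ × ℕ)) (p : ℕ × ℕ → ℂ), (∀ a ∈ S, ‖p a‖ ≤ 2) →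
    (∀ a ∈ S, ∀ b ∈ S, a ≠ b → 2 / (M : ℝ) ≤ ‖p a - p b‖) →
    ∃ (ζ : ℕ × ℕ → ℂ) (n : ℕ × ℕ → ℝ), (∀ a ∈ S, 0 ≤ n a) ∧
      ∑ a ∈ S, n a ≤ C * (1 + Real.log M) ∧ ∑ a ∈ S, ‖ζ a‖ ^ q ≤ C * M ^ 2 ∧
      ∀ a ∈ S, ∃ y ∈ ball (p a) (19 / (10 * M)), 0 < w y ∧ ∀ x ∈ closedBall (p a) (33 / M),
        w x * Real.exp (-(conj (ζ a) * x).re) ≤
          Real.exp (n a) * (w y * Real.exp (-(conj (ζ a) * y).re))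

/-- Y5, `q`-th powers: one step for a solution with growth exponent `N ≫ κ` -/
def Y5q (q : ℝ) : Prop := ∃ C : ℝ, 1 ≤ C ∧ ∀ M : ℕ, C ≤ M → ∃ T : ℝ, 1 ≤ T ∧
  ∀ (κ N : ℝ) (Q φ : ℂ → ℝ), 1 ≤ κ → T * κ ≤ N →
  (∀ z ∈ closedBall (0 : ℂ) 32, ContDiffAt ℝ ∞ φ z ∧ ContDiffAt ℝ 1 Q z ∧ |Q z| ≤ κ ^ 2 ∧
    ‖fderiv ℝ Q z‖ ≤ κ ^ 2 ∧ lap φ z + Q z * φ z = 0) →
  sn φ (closedBall 0 32) ≤ Real.exp N * sn φ (closedBall 0 2) →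
  ∃ (ζ : ℕ × ℕ → ℂ) (n : ℕ × ℕ → ℝ), (∀ a ∈ gd M, 0 ≤ n a ∧
      SS (N * ζ a) φ (ct M a) (32 / M) ≤ Real.exp (n a) * SS (N * ζ a) φ (ct M a) (2 / M)) ∧
    ∑ a ∈ gd M, n a ≤ C * (1 + Real.log M) * N ∧ ∑ a ∈ gd M, ‖ζ a‖ ^ q ≤ C * M ^ 2

/-- Y7, `q`-th powers: Y5, scaled -/
def Y7q (q : ℝ) : Prop := ∃ C : ℝ, 1 ≤ C ∧ ∀ M : ℕ, C ≤ M → ∀ L : ℝ, 1 ≤ L → ∃ T : ℝ, 1 ≤ T ∧
  ∀ (lam s N : ℝ) (p : ℂ) (ρ φ : ℂ → ℝ), Loc lam L s p ρ φ → T * (1 + Real.sqrt lam * s) ≤ N →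
  sn φ (closedBall p (32 * s)) ≤ Real.exp N * sn φ (closedBall p (2 * s)) →
  ∃ (ν : ℕ × ℕ → ℂ) (n : ℕ × ℕ → ℝ), (∀ a ∈ gd M, 0 ≤ n a ∧
      SS (ν a) φ (p + s * ct M a) (32 * (s / M)) ≤
        Real.exp (n a) * SS (ν a) φ (p + s * ct M a) (2 * (s / M))) ∧
    ∑ a ∈ gd M, n a ≤ C * (1 + Real.log M) * N ∧ ∑ a ∈ gd M, ‖ν a‖ ^ q ≤ C * M ^ 2 * (N / s) ^ q

/-- Z2, `q`-th powers: the growth exponents of the subsquares -/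
def Z2q (q : ℝ) : Prop := ∃ C : ℝ, 1 ≤ C ∧ ∀ M : ℕ, C ≤ M → ∀ L : ℝ, 1 ≤ L → ∃ T : ℝ, 1 ≤ T ∧
  ∀ (lam s N : ℝ) (p : ℂ) (ρ φ : ℂ → ℝ), Loc lam L s p ρ φ → T * (1 + Real.sqrt lam * s) ≤ N →
  gr φ p s ≤ N → ∑ c ∈ gd M, gr φ (p + s * ct M c) (s / M) ^ q ≤ C * M ^ 2 * (N / M) ^ q

/-- Z1, `q`-th powers: the growth exponents of the squares of a small scale -/
def Z1q (q : ℝ) : Prop := ∃ (M : ℕ) (s₁ : ℝ), 2 ≤ M ∧ 0 < s₁ ∧ ∀ L : ℝ, 1 ≤ L →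
  ∃ C A : ℝ, 1 ≤ C ∧ 1 ≤ A ∧ ∀ (lam s : ℝ) (p : ℂ) (ρ φ : ℂ → ℝ) (J : ℕ), Loc lam L s p ρ φ →
  s ≤ s₁ → C ≤ Real.sqrt lam * (s / M ^ J) → gr φ p s ≤ Real.sqrt lam * s →
  ∑ a ∈ gd (M ^ J), gr φ (p + s * ct (M ^ J) a) (s / M ^ J) ^ q ≤
    A * (M : ℝ) ^ (2 * J) * (Real.sqrt lam * (s / M ^ J)) ^ q

/-- Z1 for all solutions, with no bound for the growth exponent -/
def Z1L (q : ℝ) : Prop := ∃ (M : ℕ) (s₁ : ℝ), 2 ≤ M ∧ 0 < s₁ ∧ ∀ L : ℝ, 1 ≤ L →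
  ∃ C A : ℝ, 1 ≤ C ∧ 1 ≤ A ∧ ∀ (lam s : ℝ) (p : ℂ) (ρ φ : ℂ → ℝ) (J : ℕ), Loc lam L s p ρ φ →
  s ≤ s₁ → C ≤ Real.sqrt lam * (s / M ^ J) →
  ∑ a ∈ gd (M ^ J), gr φ (p + s * ct (M ^ J) a) (s / M ^ J) ^ q ≤
    A * (M : ℝ) ^ (2 * J) * ((Real.sqrt lam * s + gr φ p s) / M ^ J) ^ q

/-- the sum over discs of radius `≍ 1 / √lam` with centres in a square of any size -/
def Z6L (q : ℝ) : Prop := ∃ s₁ : ℝ, 0 < s₁ ∧ ∀ L r R C₁ : ℝ, 1 ≤ L → 0 < r → r ≤ R → 0 < C₁ →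
  ∃ A C₀ : ℝ, 0 < A ∧ 0 < C₀ ∧
  ∀ (lam s : ℝ) (p : ℂ) (ρ φ : ℂ → ℝ) (κ : Type) [Fintype κ] (w : κ → ℂ),
    Loc lam L s p ρ φ → s ≤ s₁ → C₀ ≤ Real.sqrt lam * s →
    (∀ i, |(w i - p).re| ≤ s ∧ |(w i - p).im| ≤ s) →
    (∀ x : ℂ, (Set.ncard {i | ‖x - w i‖ ≤ r / Real.sqrt lam} : ℝ) ≤ C₁) →
    ∑ i, Real.log (sn φ (closedBall (w i) (R / Real.sqrt lam)) /
      sn φ (closedBall (w i) (r / Real.sqrt lam))) ^ q ≤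
      A * (lam * s ^ 2) * (1 + gr φ p s / (Real.sqrt lam * s)) ^ q

/-- the local form on a closed surface: the sum over the discs with centres in a disc of radius `ϱ` -/
def SurfLoc (q : ℝ) : Prop := ∀ (M : Type u) (ι : Type v) [MetricSpace M] [CompactSpace M] [ConnectedSpace M]
  (U : ι → Set ℂ) (φ : ι → ℂ → M) (ρ : ι → ℂ → ℝ), Atl U φ ρ → (∀ i, ∀ z ∈ U i, 0 ≤ ρ i z) →
  ∃ K ϱ₁ : ℝ, 1 ≤ K ∧ 0 < ϱ₁ ∧ ∀ C C₁ : ℝ, 0 < C → 0 < C₁ → ∃ A C₀ : ℝ, 0 < A ∧ 0 < C₀ ∧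
  ∀ (lam : ℝ) (f : M → ℝ) (κ : Type) [Fintype κ] (b : κ → M) (x : M) (ϱ : ℝ), 0 < lam → Eig U φ ρ lam f →
    (∃ x, f x ≠ 0) →
    (∀ y : M, (Set.ncard {i | y ∈ ball (b i) (C / Real.sqrt lam)} : ℝ) ≤ C₁) →
    (∀ i, b i ∈ ball x ϱ) → ϱ ≤ ϱ₁ → C₀ ≤ Real.sqrt lam * ϱ →
    ∑ i, dbl f (b i) (C / Real.sqrt lam) ^ q ≤
      A * (lam * ϱ ^ 2) * (1 + Real.log (sn f (ball x (K * ϱ)) / sn f (ball x ϱ)) / (Real.sqrt lam * ϱ)) ^ q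

/-- the global form on a closed surface: the `q`-th moment of the doubling index -/
def SurfGlob (q : ℝ) : Prop := ∀ (M : Type u) (ι : Type v) [MetricSpace M] [CompactSpace M] [ConnectedSpace M]
  (U : ι → Set ℂ) (φ : ι → ℂ → M) (ρ : ι → ℂ → ℝ), Atl U φ ρ → (∀ i, ∀ z ∈ U i, 0 ≤ ρ i z) →
  ∀ C C₁ C₂ : ℝ, 0 < C → 0 < C₁ → 0 < C₂ → ∃ A : ℝ, 0 < A ∧
  ∀ (lam : ℝ) (f : M → ℝ) (κ : Type) [Fintype κ] (b : κ → M), 0 < lam → Eig U φ ρ lam f →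
    (∃ x, f x ≠ 0) →
    (∀ x : M, (Set.ncard {i | x ∈ ball (b i) (C / Real.sqrt lam)} : ℝ) ≤ C₁) →
    C₂⁻¹ * lam ≤ Fintype.card κ →
    (∑ i, dbl f (b i) (C / Real.sqrt lam) ^ q) / Fintype.card κ ≤ A

end

/-- elementary inequality for powers of sums -/
lemma add_rpow_le {x y q : ℝ} (hx : 0 ≤ x) (hy : 0 ≤ y) (hq : 0 ≤ q) :
    (x + y) ^ q ≤ 2 ^ q * (x ^ q + y ^ q) := by
  have h1 : x + y ≤ 2 * max x y := by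
    linarith [le_max_left x y, le_max_right x y]
  have h0 : 0 ≤ max x y := le_max_of_le_left hx
  calc (x + y) ^ q ≤ (2 * max x y) ^ q := Real.rpow_le_rpow (by positivity) h1 hq
    _ = 2 ^ q * (max x y) ^ q := Real.mul_rpow (by norm_num) h0
    _ ≤ 2 ^ q * (x ^ q + y ^ q) := by
      apply mul_le_mul_of_nonneg_left _ (by positivity)
      have h2 := Real.rpow_nonneg hx q
      have h3 := Real.rpow_nonneg hy q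
      rcases le_total x y with h | h
      · rw [max_eq_right h]; linarith
      · rw [max_eq_left h]; linarith

/-- `x ^ q ≤ B ^ (q - 1) * x` for `0 ≤ x ≤ B` and `q ≥ 1` -/
lemma rpow_le_mul {x B q : ℝ} (hx : 0 ≤ x) (hxB : x ≤ B) (hq : 1 ≤ q) : x ^ q ≤ B ^ (q - 1) * x := by
  rcases hx.eq_or_lt with rfl | h0
  · rw [Real.zero_rpow (by linarith), mul_zero]
  · have e : x ^ q = x ^ (q - 1) * x := by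
      rw [← Real.rpow_add_one h0.ne']
      congr 1
      ring
    rw [e]
    exact mul_le_mul_of_nonneg_right (Real.rpow_le_rpow hx hxB (by linarith)) hx

end Pool.Agent.Helper70x.AP
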