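import Pool.Agent.Helper70x.AP.Z2q
import Pool.Agent.Q73.AD.YZ1

/-!
# Assembly of the local theorem for the `q`-th powers of the rates, `q < 2`
-/

set_option autoImplicit false
open MeasureTheory Filter Topology Complex Metric
open scoped ContDiff ComplexConjugate

namespace Pool.Agent.Helper70x.AP

open Pool.Agent.Q73.NL Pool.Agent.Q73.AD
open Pool.Agent.Q73.AD.YZ1

/-- the conclusion of Z2q -/
def Z2qP (q C : ℝ) (m : ℕ) (L T : ℝ) : Prop :=
  ∀ (lam s N : ℝ) (p : ℂ) (ρ φ : ℂ → ℝ), Loc lam L s p ρ φ → T * (1 + Real.sqrt lam * s) ≤ N →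
  gr φ p s ≤ N → ∑ c ∈ gd m, gr φ (p + s * ct m c) (s / m) ^ q ≤ C * m ^ 2 * (N / m) ^ q

section

variable {lam L s G T C ε q : ℝ} {p : ℂ} {ρ φ : ℂ → ℝ} {M J : ℕ}

/-- the `q`-th power of the rate of a descendant -/
lemma gg_desc (hM : 2 ≤ M) {i k : ℕ} {a c : ℕ × ℕ} (ha : a ∈ gd (M ^ i)) (hc : c ∈ gd (M ^ k))
    (hik : i + k ≤ J) : gg lam s p φ M J (i + k) (ch (M ^ k) a c) =
      gr φ (pp p s M i a + (sc s M i : ℝ) * ct (M ^ k) c) (sc s M i / (M : ℝ) ^ k) /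
        (Real.sqrt lam * sc s M (i + k)) := by
  have hmem : ch (M ^ k) a c ∈ gd (M ^ (i + k)) := by
    rw [pow_add]; exact ch_mem ha hc
  rw [gg_eq hik hmem, pp_ch (by omega), sc_add]

lemma gr_desc_nonneg (h : Loc lam L s p ρ φ) (hM : 2 ≤ M) {i k : ℕ} {a c : ℕ × ℕ} (ha : a ∈ gd (M ^ i))
    (hc : c ∈ gd (M ^ k)) :
    0 ≤ gr φ (pp p s M i a + (sc s M i : ℝ) * ct (M ^ k) c) (sc s M i / (M : ℝ) ^ k) := by
  have hmem : ch (M ^ k) a c ∈ gd (M ^ (i + k)) := by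
    rw [pow_add]; exact ch_mem ha hc
  rw [pp_ch (by omega), sc_add]
  exact YZ1.gr_nonneg (loc h hM hmem)

lemma superq_ (hq : 1 ≤ q) (h : Loc lam L s p ρ φ) (hM : 2 ≤ M) (hκ : 1 ≤ Real.sqrt lam * sc s M J)
    (hT : 1 ≤ T) (hG : 2 * T ≤ G) {i k : ℕ} (hZ : Z2qP q C (M ^ k) L T) {a : ℕ × ℕ}
    (ha : a ∈ gd (M ^ i)) (hg : G < gg lam s p φ M J i a) (hik : i + k ≤ J) :
    ∑ c ∈ gd (M ^ k), gg lam s p φ M J (i + k) (ch (M ^ k) a c) ^ q ≤
      C * (M : ℝ) ^ (2 * k) * gg lam s p φ M J i a ^ q := by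
  have hM0 : (0 : ℝ) < M := by
    have : 0 < M := by omega
    exact_mod_cast this
  have hloc := loc h hM ha
  have hi : i ≤ J := by omega
  have hk := kone h hM hκ hi
  have h2 := hZ lam (sc s M i) (gr φ (pp p s M i a) (sc s M i)) (pp p s M i a) ρ φ hloc
    (by
      rw [← gg_mul h hM hi ha]
      exact (Nbig hT hG hk).trans (mul_le_mul_of_nonneg_right hg.le (by linarith))) le_rfl
  have h5 := sc_add (s := s) (M := M) i k
  push_cast at h2
  have hkp := kpos (L := L) h hM (i + k)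
  have hgg0 : 0 ≤ gg lam s p φ M J i a := gg_nonneg h hM i a
  have h3 : ∑ c ∈ gd (M ^ k), gg lam s p φ M J (i + k) (ch (M ^ k) a c) ^ q =
      (∑ c ∈ gd (M ^ k), gr φ (pp p s M i a + (sc s M i : ℝ) * ct (M ^ k) c)
        (sc s M i / (M : ℝ) ^ k) ^ q) / (Real.sqrt lam * sc s M (i + k)) ^ q := by
    rw [Finset.sum_div]
    apply Finset.sum_congr rfl
    intro c hc
    rw [gg_desc hM ha hc hik, Real.div_rpow (gr_desc_nonneg h hM ha hc) hkp.le]
  rw [h3, div_le_iff₀ (by positivity)]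
  refine h2.trans (le_of_eq ?_)
  have e1 : gr φ (pp p s M i a) (sc s M i) / (M : ℝ) ^ k =
      gg lam s p φ M J i a * (Real.sqrt lam * sc s M (i + k)) := by
    rw [← gg_mul h hM hi ha, ← h5]
    field_simp
  rw [e1, Real.mul_rpow hgg0 hkp.le]
  ring

lemma super'q_ (hq : 1 ≤ q) (h : Loc lam L s p ρ φ) (hM : 2 ≤ M) (hκ : 1 ≤ Real.sqrt lam * sc s M J)
    (hT : 1 ≤ T) (hG : 2 * T ≤ G) (hC : 0 ≤ C) {i l : ℕ} (hZ : Z2P C (M ^ l) L T) {a : ℕ × ℕ}
    (hε : 0 < ε) (hε1 : ε ≤ 1)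
    (hl : (2 + 34 / ε) * (C * (1 + Real.log ((M ^ l : ℕ) : ℝ))) ^ q ≤ ((M : ℝ) ^ l) ^ (2 - q) / 2)
    (ha : a ∈ gd (M ^ i)) (hg : G < gg lam s p φ M J i a) (hik : i + l ≤ J)
    (S : Finset (ℕ × ℕ)) (hS : S ⊆ gd (M ^ l))
    (hSc : ∀ c ∈ S, G < gg lam s p φ M J (i + l) (ch (M ^ l) a c) ∧
      ¬ LL lam s G ε p φ M J (i + l) (ch (M ^ l) a c)) :
    ∑ c ∈ S, gg lam s p φ M J (i + l) (ch (M ^ l) a c) ^ q ≤
      1 / 2 * (M : ℝ) ^ (2 * l) * gg lam s p φ M J i a ^ q := by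
  have hM0 : (0 : ℝ) < M := by
    have : 0 < M := by omega
    exact_mod_cast this
  have hG0 : 0 < G := by linarith
  have hloc := loc h hM ha
  have hi : i ≤ J := by omega
  have hk := kone h hM hκ hi
  obtain ⟨-, h6, -, h2⟩ := hZ lam (sc s M i) (gr φ (pp p s M i a) (sc s M i)) (pp p s M i a) ρ φ hloc
    (by
      rw [← gg_mul h hM hi ha]
      exact (Nbig hT hG hk).trans (mul_le_mul_of_nonneg_right hg.le (by linarith))) le_rfl
  have h5 := sc_add (s := s) (M := M) i l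
  have hk0 := Real.sqrt_pos.2 h.lam_pos
  have hscl : 0 < sc s M (i + l) := sc_pos h.s_pos (by omega) _
  have hlogM : 0 ≤ Real.log ((M ^ l : ℕ) : ℝ) := Real.log_natCast_nonneg _
  have h2' := h2 ε (G * Real.sqrt lam / 512) hε hε1 (by positivity) S hS (by
    intro c hc
    have hmem : ch (M ^ l) a c ∈ gd (M ^ (i + l)) := by
      rw [pow_add]; exact ch_mem ha (hS hc)
    obtain ⟨h6, h7⟩ := hSc c hc
    push_cast
    rw [pp_ch (by omega), h5]
    constructor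
    · rw [← gg_mul h hM hik hmem]
      have h8 : G * (Real.sqrt lam * sc s M (i + l)) <
          gg lam s p φ M J (i + l) (ch (M ^ l) a c) * (Real.sqrt lam * sc s M (i + l)) :=
        mul_lt_mul_of_pos_right h6 (by positivity)
      refine lt_of_le_of_lt ?_ h8
      have h9 : 0 ≤ G * (Real.sqrt lam * sc s M (i + l)) := by positivity
      nlinarith
    · intro ν hν
      by_contra hcon
      push Not at hcon
      exact h7 ⟨hik, hmem, ν, hν, hcon⟩)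
  obtain ⟨N, hN⟩ : ∃ N : ℝ, N = gr φ (pp p s M i a) (sc s M i) := ⟨_, rfl⟩
  have hN0 : 0 ≤ N := by rw [hN]; exact YZ1.gr_nonneg hloc
  obtain ⟨B, hB⟩ : ∃ B : ℝ, B = C * (1 + Real.log ((M ^ l : ℕ) : ℝ)) * N := ⟨_, rfl⟩
  have hB0 : 0 ≤ B := by rw [hB]; positivity
  rw [← hN, ← hB] at h2' h6
  push_cast at h2' h6
  have hkp := kpos (L := L) h hM (i + l)
  have hgg0 : 0 ≤ gg lam s p φ M J i a := gg_nonneg h hM i a
  have h7 : ∑ c ∈ S, gr φ (pp p s M i a + (sc s M i : ℝ) * ct (M ^ l) c) (sc s M i / (M : ℝ) ^ l) ^ q ≤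
      (2 + 34 / ε) * B ^ q := by
    calc _ ≤ ∑ c ∈ S, B ^ (q - 1) *
          gr φ (pp p s M i a + (sc s M i : ℝ) * ct (M ^ l) c) (sc s M i / (M : ℝ) ^ l) := by
          refine Finset.sum_le_sum fun c hc => ?_
          exact rpow_le_mul (gr_desc_nonneg h hM ha (hS hc)) (h6 c (hS hc)) hq
      _ = B ^ (q - 1) * ∑ c ∈ S,
          gr φ (pp p s M i a + (sc s M i : ℝ) * ct (M ^ l) c) (sc s M i / (M : ℝ) ^ l) :=
          (Finset.mul_sum _ _ _).symm
      _ ≤ B ^ (q - 1) * ((2 + 34 / ε) * B) := mul_le_mul_of_nonneg_left h2' (by positivity)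
      _ = (2 + 34 / ε) * (B ^ (q - 1) * B) := by ring
      _ = _ := by rw [rpow_sub_one_mul hB0 hq]
  have h3 : ∑ c ∈ S, gg lam s p φ M J (i + l) (ch (M ^ l) a c) ^ q =
      (∑ c ∈ S, gr φ (pp p s M i a + (sc s M i : ℝ) * ct (M ^ l) c)
        (sc s M i / (M : ℝ) ^ l) ^ q) / (Real.sqrt lam * sc s M (i + l)) ^ q := by
    rw [Finset.sum_div]
    apply Finset.sum_congr rfl
    intro c hc
    rw [gg_desc hM ha (hS hc) hik, Real.div_rpow (gr_desc_nonneg h hM ha (hS hc)) hkp.le]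
  rw [h3, div_le_iff₀ (by positivity)]
  refine h7.trans ?_
  have hMl : (0 : ℝ) < (M : ℝ) ^ l := by positivity
  have e1 : N = gg lam s p φ M J i a * (Real.sqrt lam * sc s M (i + l)) * (M : ℝ) ^ l := by
    rw [hN, ← gg_mul h hM hi ha, ← h5]
    field_simp
  have e2 : B ^ q = (C * (1 + Real.log ((M ^ l : ℕ) : ℝ))) ^ q *
      (gg lam s p φ M J i a ^ q * (Real.sqrt lam * sc s M (i + l)) ^ q * ((M : ℝ) ^ l) ^ q) := by
    rw [hB, Real.mul_rpow (by positivity) hN0, e1, Real.mul_rpow (by positivity) hMl.le,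
      Real.mul_rpow hgg0 hkp.le]
  have e3 : ((M : ℝ) ^ l) ^ (2 - q) * ((M : ℝ) ^ l) ^ q = (M : ℝ) ^ (2 * l) := by
    rw [← Real.rpow_add hMl]
    have : 2 - q + q = (2 : ℕ) := by push_cast; ring
    rw [this, Real.rpow_natCast, ← pow_mul, mul_comm]
  rw [e2]
  have hX : 0 ≤ gg lam s p φ M J i a ^ q * (Real.sqrt lam * sc s M (i + l)) ^ q * ((M : ℝ) ^ l) ^ q := by
    positivity
  calc (2 + 34 / ε) * ((C * (1 + Real.log ((M ^ l : ℕ) : ℝ))) ^ q *
        (gg lam s p φ M J i a ^ q * (Real.sqrt lam * sc s M (i + l)) ^ q * ((M : ℝ) ^ l) ^ q))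
      = (2 + 34 / ε) * (C * (1 + Real.log ((M ^ l : ℕ) : ℝ))) ^ q *
        (gg lam s p φ M J i a ^ q * (Real.sqrt lam * sc s M (i + l)) ^ q * ((M : ℝ) ^ l) ^ q) := by ring
    _ ≤ ((M : ℝ) ^ l) ^ (2 - q) / 2 *
        (gg lam s p φ M J i a ^ q * (Real.sqrt lam * sc s M (i + l)) ^ q * ((M : ℝ) ^ l) ^ q) :=
        mul_le_mul_of_nonneg_right hl hX
    _ = 1 / 2 * (((M : ℝ) ^ l) ^ (2 - q) * ((M : ℝ) ^ l) ^ q) * gg lam s p φ M J i a ^ q *
        (Real.sqrt lam * sc s M (i + l)) ^ q := by ring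
    _ = _ := by rw [e3]

/-- `lin_` with a lower bound for the rate `x` -/
lemma linx_ {θ B s₁ : ℝ} (h : Loc lam L s p ρ φ) (hs1 : s ≤ s₁) (hM : 2 ≤ M)
    (hL1 : 1 ≤ L) (hG1 : 1 ≤ G) (hGL : 1024 * Real.sqrt L ≤ G)
    (hB : 512 * B ≤ Real.sqrt lam * sc s M J) (hY : Y9P θ M ε B s₁)
    {i : ℕ} {a : ℕ × ℕ} (hLin : LL lam s G ε p φ M J i a) :
    ∃ (x : ℝ) (R : Finset (ℕ × (ℕ × ℕ))), G / 512 ≤ x ∧
      (∀ r ∈ R, 1 ≤ r.1 ∧ i + r.1 ≤ J ∧ r.2 ∈ gd (M ^ r.1)) ∧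
      ∑ r ∈ R, ((M : ℝ) ^ (2 * r.1))⁻¹ ≤ θ ∧
      ∑ r ∈ R, ((M : ℝ) ^ (2 * r.1))⁻¹ * gg lam s p φ M J (i + r.1) (ch (M ^ r.1) a r.2) ≤
        θ * x ∧
      ∀ j, i ≤ j → j ≤ J → ∀ b ∈ gd (M ^ j), anc (M ^ (j - i)) b = a →
        (∀ k, i < k → k ≤ j → (k - i, md (M ^ (k - i)) (anc (M ^ (j - k)) b)) ∉ R) →
        x ≤ gg lam s p φ M J j b ∧ gg lam s p φ M J j b ≤ 52 * x := by
  obtain ⟨hi, ha, ν, hν, hS⟩ := hLin
  have hloc := loc h hM ha
  have hk0 : 0 < Real.sqrt lam := Real.sqrt_pos.2 h.lam_pos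
  have hJ : sc s M i / (M : ℝ) ^ (J - i) = sc s M J := by
    rw [sc_add]; congr 1; omega
  have hM0 : (0 : ℝ) < M := by
    have : 0 < M := by omega
    exact_mod_cast this
  have hscJ : 0 < sc s M J := sc_pos h.s_pos (by omega) _
  have h1 : 4 * (lam * L) ≤ ‖ν‖ ^ 2 := by
    have h2 : 2 * (Real.sqrt L * Real.sqrt lam) ≤ ‖ν‖ := by
      refine le_trans ?_ hν
      have : 2 * Real.sqrt L ≤ G / 512 := by linarith
      have h3 := mul_le_mul_of_nonneg_right this hk0.le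
      linarith
    have h3 : (2 * (Real.sqrt L * Real.sqrt lam)) ^ 2 ≤ ‖ν‖ ^ 2 := by
      apply pow_le_pow_left₀ (by positivity) h2
    refine le_trans (le_of_eq ?_) h3
    have h4 := Real.sq_sqrt (show 0 ≤ L by linarith)
    have h5 := Real.sq_sqrt h.lam_pos.le
    calc 4 * (lam * L) = 4 * (Real.sqrt lam ^ 2 * Real.sqrt L ^ 2) := by rw [h4, h5]
      _ = _ := by ring
  have h2 : B ≤ ‖ν‖ * (sc s M i / (M : ℝ) ^ (J - i)) := by
    rw [hJ]
    have h3 : Real.sqrt lam / 512 ≤ ‖ν‖ := by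
      refine le_trans ?_ hν
      have := mul_le_mul_of_nonneg_right hG1 hk0.le
      linarith
    have h4 := mul_le_mul_of_nonneg_right h3 hscJ.le
    have h5 : Real.sqrt lam / 512 * sc s M J = (Real.sqrt lam * sc s M J) / 512 := by ring
    rw [h5] at h4
    linarith
  have h3 : sc s M i ≤ s₁ := by
    refine le_trans (sc_anti h.s_pos hM (Nat.zero_le i)) ?_
    simpa [sc] using hs1
  obtain ⟨R, hR1, hR2, hR3, hR4⟩ := hY lam L (sc s M i) (pp p s M i a) ν ρ φ (J - i) hloc h3 h1 h2 hS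
  have hRm : ∀ r ∈ R, 1 ≤ r.1 ∧ i + r.1 ≤ J ∧ r.2 ∈ gd (M ^ r.1) := by
    intro r hr
    obtain ⟨h4, h5, h6⟩ := hR1 r hr
    exact ⟨h4, by omega, h6⟩
  refine ⟨‖ν‖ / Real.sqrt lam, R, ?_, hRm, hR2, ?_, ?_⟩
  · rw [le_div_iff₀ hk0]
    linarith
  · have h4 : ∑ r ∈ R, ((M : ℝ) ^ (2 * r.1))⁻¹ *
        gg lam s p φ M J (i + r.1) (ch (M ^ r.1) a r.2) =
        (∑ r ∈ R, ((M : ℝ) ^ (2 * r.1))⁻¹ *
      (gr φ (pp p s M i a + (sc s M i : ℝ) * ct (M ^ r.1) r.2) (sc s M i / M ^ r.1) /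
        (sc s M i / M ^ r.1))) / Real.sqrt lam := by
      rw [Finset.sum_div]
      apply Finset.sum_congr rfl
      intro r hr
      obtain ⟨h4, h5, h6⟩ := hRm r hr
      have hmem : ch (M ^ r.1) a r.2 ∈ gd (M ^ (i + r.1)) := by
        rw [pow_add]; exact ch_mem ha h6
      rw [gg_eq h5 hmem, pp_ch (by omega), sc_add]
      have h7 : 0 < sc s M (i + r.1) := sc_pos h.s_pos (by omega) _
      field_simp
    rw [h4, div_le_iff₀ hk0]
    refine hR3.trans (le_of_eq ?_)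
    field_simp
  · intro j hij hjJ b hb hanc hnot
    have hpos : 0 < M ^ (j - i) := pow_pos (by omega) _
    have hb' : md (M ^ (j - i)) b ∈ gd (M ^ (j - i)) := md_mem hpos b
    have h4 := hR4 (j - i) (by omega) (md (M ^ (j - i)) b) hb' (by
      intro k' hk' hmem
      rcases Nat.eq_zero_or_pos k' with rfl | hk0'
      · have := (hR1 _ hmem).1
        simp at this
      · apply hnot (i + k') (by omega) (by omega)
        have e1 : i + k' - i = k' := by omega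
        have e2 : j - i = (j - (i + k')) + k' := by omega
        have e3 : j - i - k' = j - (i + k') := by omega
        rw [e1, ← anc_md_comm, ← e2, ← e3]
        exact hmem)
    have h5 : ch (M ^ (j - i)) a (md (M ^ (j - i)) b) = b := by
      rw [← hanc]; exact ch_anc_md _ b
    have h6 := pp_ch (p := p) (s := s) (M := M) (by omega) i (j - i) a (md (M ^ (j - i)) b)
    have h7 := sc_add (s := s) (M := M) i (j - i)
    have h8 : i + (j - i) = j := by omega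
    rw [h5] at h6
    rw [h8] at h6 h7
    rw [h6, h7] at h4
    have hscj : 0 < sc s M j := sc_pos h.s_pos (by omega) _
    rw [gg_eq hjJ hb]
    constructor
    · rw [div_le_div_iff₀ hk0 (by positivity)]
      nlinarith [mul_le_mul_of_nonneg_right h4.1 hk0.le]
    · rw [div_le_iff₀ (by positivity)]
      refine h4.2.trans (le_of_eq ?_)
      field_simp

lemma idx {r k : ℕ} (hM : 0 < M) (hk : k ≤ r) {a c : ℕ × ℕ} (hc : c ∈ gd (M ^ r)) :
    md (M ^ k) (anc (M ^ (r - k)) (ch (M ^ r) a c)) = anc (M ^ (r - k)) c := by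
  have e1 : M ^ r = M ^ k * M ^ (r - k) := by rw [← pow_add]; congr 1; omega
  have h1 : ch (M ^ r) a c = ch (M ^ (r - k)) (ch (M ^ k) a (anc (M ^ (r - k)) c)) (md (M ^ (r - k)) c) := by
    rw [ch_ch, ← e1, ch_anc_md]
  rw [h1, anc_ch (md_mem (pow_pos hM _) _), md_ch]
  apply anc_mem
  rw [← e1]
  exact hc

/-- the rate of a child of a square with a small rate -/
lemma childx_ (h : Loc lam L s p ρ φ) (hM : 2 ≤ M) (hκ : 1 ≤ Real.sqrt lam * sc s M J)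
    (hT : 1 ≤ T) (hG : 2 * T ≤ G) (hZ : Z2P C M L T) {i : ℕ} (hi : i < J) {a : ℕ × ℕ}
    (ha : a ∈ gd (M ^ i)) {y : ℝ} (hy : G ≤ y) (hg : gg lam s p φ M J i a ≤ y) {c : ℕ × ℕ} (hc : c ∈ gd M) :
    gg lam s p φ M J (i + 1) (ch M a c) ≤ C * (1 + Real.log M) * M * y :=
  child_ h hM hκ hT (hG.trans hy) hZ hi ha hg hc

lemma linq_ {θ B s₁ : ℝ} (hq : 1 ≤ q) (h : Loc lam L s p ρ φ) (hs1 : s ≤ s₁) (hM : 2 ≤ M)
    (hL1 : 1 ≤ L) (hG1 : 1 ≤ G) (hGL : 1024 * Real.sqrt L ≤ G)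
    (hB : 512 * B ≤ Real.sqrt lam * sc s M J) (hY : Y9P θ M ε B s₁)
    (hκ : 1 ≤ Real.sqrt lam * sc s M J)
    (hT : 1 ≤ T) (hG : 2 * T ≤ G) (hZ : Z2P C M L T) (hC : 0 ≤ C)
    {i : ℕ} {a : ℕ × ℕ} (hLin : LL lam s G ε p φ M J i a) :
    ∃ (x : ℝ) (R : Finset (ℕ × (ℕ × ℕ))), 0 ≤ x ∧
      (∀ r ∈ R, 1 ≤ r.1 ∧ i + r.1 ≤ J ∧ r.2 ∈ gd (M ^ r.1)) ∧
      ∑ r ∈ R, ((M : ℝ) ^ (2 * r.1))⁻¹ ≤ θ ∧
      ∑ r ∈ R, ((M : ℝ) ^ (2 * r.1))⁻¹ * gg lam s p φ M J (i + r.1) (ch (M ^ r.1) a r.2) ^ q ≤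
        (C * (1 + Real.log M) * M * 512) ^ (q - 1) * θ * x ^ q ∧
      ∀ j, i ≤ j → j ≤ J → ∀ b ∈ gd (M ^ j), anc (M ^ (j - i)) b = a →
        (∀ k, i < k → k ≤ j → (k - i, md (M ^ (k - i)) (anc (M ^ (j - k)) b)) ∉ R) →
        x ≤ gg lam s p φ M J j b ∧ gg lam s p φ M J j b ≤ 52 * x := by
  classical
  have ha := hLin.2.1
  obtain ⟨x, R, hx, hR1, hR2, hR3, hR4⟩ := linx_ h hs1 hM hL1 hG1 hGL hB hY hLin
  have hx0 : 0 ≤ x := by linarith
  have hM0' : 0 < M := by omega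
  have hM0 : (0 : ℝ) < M := by exact_mod_cast hM0'
  have hlog : 0 ≤ Real.log (M : ℝ) := Real.log_natCast_nonneg _
  obtain ⟨K, hK⟩ : ∃ K : ℝ, K = C * (1 + Real.log M) * M * 512 := ⟨_, rfl⟩
  have hK0 : 0 ≤ K := by rw [hK]; positivity
  rw [← hK]
  obtain ⟨R', hR'⟩ : ∃ R' : Finset (ℕ × (ℕ × ℕ)), R' = R.filter (fun r => ∀ k, 1 ≤ k → k < r.1 →
      (k, anc (M ^ (r.1 - k)) r.2) ∉ R) := ⟨_, rfl⟩
  have hsub : R' ⊆ R := by rw [hR']; exact Finset.filter_subset _ _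
  have hpos : ∀ r ∈ R, 0 ≤ ((M : ℝ) ^ (2 * r.1))⁻¹ := fun r _ => by positivity
  have hgg := fun (j : ℕ) (b : ℕ × ℕ) => gg_nonneg (J := J) h hM j b
  refine ⟨x, R', hx0, fun r hr => hR1 r (hsub hr), ?_, ?_, ?_⟩
  · exact (Finset.sum_le_sum_of_subset_of_nonneg hsub fun r hr _ => hpos r hr).trans hR2
  · -- the released squares have rate at most `K x`
    have hbd : ∀ r ∈ R', gg lam s p φ M J (i + r.1) (ch (M ^ r.1) a r.2) ≤ K * x := by
      intro r hr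
      have hrR := hsub hr
      obtain ⟨h1, h2, h3⟩ := hR1 r hrR
      rw [hR', Finset.mem_filter] at hr
      obtain ⟨n, hn⟩ : ∃ n, r.1 = n + 1 := ⟨r.1 - 1, by omega⟩
      rw [hn] at h2 h3 hr ⊢
      -- the parent
      obtain ⟨b, hb⟩ : ∃ b, b = ch (M ^ n) a (anc M r.2) := ⟨_, rfl⟩
      have hc : md M r.2 ∈ gd M := md_mem hM0' _
      have hanc : anc M r.2 ∈ gd (M ^ n) := by
        apply anc_mem
        rw [← pow_succ]
        exact h3
      have hbm : b ∈ gd (M ^ (i + n)) := by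
        rw [hb, pow_add]; exact ch_mem ha hanc
      have hch : ch (M ^ (n + 1)) a r.2 = ch M b (md M r.2) := by
        rw [hb, ch_ch, ch_anc_md, ← pow_succ]
      have hpar : gg lam s p φ M J (i + n) b ≤ 52 * x := by
        refine (hR4 (i + n) (by omega) (by omega) b hbm ?_ ?_).2
        · have e : i + n - i = n := by omega
          rw [e, hb, anc_ch hanc]
        · intro k hk1 hk2
          obtain ⟨k', rfl⟩ : ∃ k', k = i + k' := ⟨k - i, by omega⟩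
          have e1 : i + k' - i = k' := by omega
          have e2 : i + n - (i + k') = n - k' := by omega
          rw [e1, e2, hb, idx hM0' (by omega) hanc]
          have h4 := hr.2 k' (by omega) (by omega)
          have e3 : anc (M ^ (n - k')) (anc M r.2) = anc (M ^ (n + 1 - k')) r.2 := by
            rw [anc_anc]
            congr 1
            rw [← pow_succ']
            congr 1
            omega
          rw [e3]
          exact h4
      have h4 := childx_ (C := C) h hM hκ hT hG hZ (show i + n < J by omega) hbm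
        (y := 512 * x) (by linarith) (by linarith) hc
      rw [hch]
      refine h4.trans (le_of_eq ?_)
      rw [hK]
      ring
    calc ∑ r ∈ R', ((M : ℝ) ^ (2 * r.1))⁻¹ * gg lam s p φ M J (i + r.1) (ch (M ^ r.1) a r.2) ^ q
        ≤ ∑ r ∈ R', (K * x) ^ (q - 1) * (((M : ℝ) ^ (2 * r.1))⁻¹ *
            gg lam s p φ M J (i + r.1) (ch (M ^ r.1) a r.2)) := by
          refine Finset.sum_le_sum fun r hr => ?_
          have h1 := rpow_le_mul (hgg (i + r.1) (ch (M ^ r.1) a r.2)) (hbd r hr) hq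
          have h2 := mul_le_mul_of_nonneg_left h1 (hpos r (hsub hr))
          linarith
      _ = (K * x) ^ (q - 1) * ∑ r ∈ R', ((M : ℝ) ^ (2 * r.1))⁻¹ *
            gg lam s p φ M J (i + r.1) (ch (M ^ r.1) a r.2) := (Finset.mul_sum _ _ _).symm
      _ ≤ (K * x) ^ (q - 1) * (θ * x) := by
          apply mul_le_mul_of_nonneg_left _ (by positivity)
          refine (Finset.sum_le_sum_of_subset_of_nonneg hsub fun r hr _ => ?_).trans hR3
          exact mul_nonneg (hpos r hr) (hgg _ _)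
      _ = K ^ (q - 1) * θ * (x ^ (q - 1) * x) := by
          rw [Real.mul_rpow hK0 hx0]; ring
      _ = _ := by rw [rpow_sub_one_mul hx0 hq]
  · intro j hij hjJ b hb hanc hnot
    apply hR4 j hij hjJ b hb hanc
    by_contra hcon
    push Not at hcon
    obtain ⟨k₀, hk₀⟩ := hcon
    have hex : ∃ k, i < k ∧ k ≤ j ∧ (k - i, md (M ^ (k - i)) (anc (M ^ (j - k)) b)) ∈ R := ⟨k₀, hk₀⟩
    obtain ⟨h1, h2, h3⟩ := Nat.find_spec hex
    obtain ⟨k, hk⟩ : ∃ k, k = Nat.find hex := ⟨_, rfl⟩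
    have hmin : ∀ k', k' < k → ¬ (i < k' ∧ k' ≤ j ∧ (k' - i, md (M ^ (k' - i)) (anc (M ^ (j - k')) b)) ∈ R) :=
      fun k' hk' => Nat.find_min hex (hk ▸ hk')
    rw [← hk] at h1 h2 h3
    apply hnot k h1 h2
    rw [hR', Finset.mem_filter]
    refine ⟨h3, fun k' hk1 hk2 hmem => ?_⟩
    simp only at hk2 hmem
    apply hmin (i + k') (by omega)
    refine ⟨by omega, by omega, ?_⟩
    have e1 : i + k' - i = k' := by omega
    have e2 : k - i = (k - i - k') + k' := by omega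
    have e3 : anc (M ^ (k - i - k')) (md (M ^ (k - i)) (anc (M ^ (j - k)) b)) =
        md (M ^ k') (anc (M ^ (j - (i + k'))) b) := by
      conv_lhs => rw [e2]
      have e4 : k - i - k' + k' - k' = k - i - k' := by omega
      rw [e4, anc_md_comm, anc_anc]
      congr 2
      rw [← pow_add]
      congr 1
      omega
    rw [e1, ← e3]
    exact hmem

end

lemma ex_lq {q : ℝ} (hq : 1 ≤ q) (hq2 : q < 2) (K C : ℝ) (hC : 0 ≤ C) {M : ℕ} (hM : 2 ≤ M) :
    ∃ l : ℕ, 1 ≤ l ∧ K * (C * (1 + Real.log ((M ^ l : ℕ) : ℝ))) ^ q ≤ ((M : ℝ) ^ l) ^ (2 - q) / 2 := by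
  -- `(1 + log n)^q = o(n^(2 - q))`
  obtain ⟨q', hq'⟩ : ∃ q' : ℝ, q' = (q + 2) / 2 := ⟨_, rfl⟩
  have hδ : 0 < 2 - q := by linarith
  have h1 : Tendsto (fun n : ℝ => (1 + Real.log n) / n ^ ((2 - q) / (2 * q))) atTop (𝓝 0) := by
    have hε : 0 < (2 - q) / (2 * q) := by
      have : 0 < q := by linarith
      positivity
    have h2 : Tendsto (fun x : ℝ => (x ^ ((2 - q) / (2 * q)))⁻¹ + Real.log x / x ^ ((2 - q) / (2 * q))) atTop
        (𝓝 (0 + 0)) := by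
      apply Tendsto.add
      · exact (tendsto_rpow_atTop hε).inv_tendsto_atTop
      · exact (isLittleO_log_rpow_atTop hε).tendsto_div_nhds_zero
    rw [add_zero] at h2
    refine h2.congr fun x => ?_
    ring
  have h2 : Tendsto (fun l : ℕ => ((M : ℝ) ^ l)) atTop atTop :=
    tendsto_pow_atTop_atTop_of_one_lt (by
      have : (2 : ℝ) ≤ M := by exact_mod_cast hM
      linarith)
  have h3 := h1.comp h2
  have h5 : ∀ᶠ l : ℕ in atTop, (1 + Real.log ((M : ℝ) ^ l)) / ((M : ℝ) ^ l) ^ ((2 - q) / (2 * q)) < 1 :=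
    h3.eventually_lt_const (by norm_num)
  have h6 : Tendsto (fun l : ℕ => ((M : ℝ) ^ l) ^ ((2 - q) / 2)) atTop atTop :=
    (tendsto_rpow_atTop (by linarith)).comp h2
  obtain ⟨l, h7, h8, h9⟩ := (h5.and ((h6.eventually_ge_atTop (2 * (|K| * C ^ q))).and
    (eventually_ge_atTop 1))).exists
  refine ⟨l, h9, ?_⟩
  have hM0 : (0 : ℝ) < M := by
    have : 0 < M := by omega
    exact_mod_cast this
  have hn0 : (0 : ℝ) < (M : ℝ) ^ l := by positivity
  obtain ⟨n, hn⟩ : ∃ n : ℝ, n = (M : ℝ) ^ l := ⟨_, rfl⟩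
  push_cast
  rw [← hn] at h7 h8 hn0 ⊢
  have hn1 : 1 ≤ n := by
    rw [hn]
    exact one_le_pow₀ (by
      have : (2 : ℝ) ≤ M := by exact_mod_cast hM
      linarith)
  have hlog : 0 ≤ Real.log n := Real.log_nonneg hn1
  have hp0 : 0 < n ^ ((2 - q) / (2 * q)) := by positivity
  rw [div_lt_one hp0] at h7
  have h10 : (1 + Real.log n) ^ q ≤ n ^ ((2 - q) / 2) := by
    calc (1 + Real.log n) ^ q ≤ (n ^ ((2 - q) / (2 * q))) ^ q :=
          Real.rpow_le_rpow (by positivity) h7.le (by linarith)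
      _ = _ := by
        rw [← Real.rpow_mul hn0.le]
        congr 1
        have : q ≠ 0 := by linarith
        field_simp
  have h11 : K ≤ |K| := le_abs_self K
  have hCq : 0 ≤ C ^ q := Real.rpow_nonneg hC q
  calc K * (C * (1 + Real.log n)) ^ q = K * (C ^ q * (1 + Real.log n) ^ q) := by
        rw [Real.mul_rpow hC (by positivity)]
    _ ≤ |K| * (C ^ q * (1 + Real.log n) ^ q) := mul_le_mul_of_nonneg_right h11 (by positivity)
    _ ≤ |K| * (C ^ q * n ^ ((2 - q) / 2)) := by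
        apply mul_le_mul_of_nonneg_left _ (abs_nonneg _)
        exact mul_le_mul_of_nonneg_left h10 hCq
    _ = (2 * (|K| * C ^ q)) * n ^ ((2 - q) / 2) / 2 := by ring
    _ ≤ n ^ ((2 - q) / 2) * n ^ ((2 - q) / 2) / 2 := by
        apply div_le_div_of_nonneg_right _ (by norm_num)
        exact mul_le_mul_of_nonneg_right h8 (by positivity)
    _ = n ^ (2 - q) / 2 := by
        rw [← Real.rpow_add hn0]
        congr 2
        ring

end Pool.Agent.Helper70x.AP
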